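import Pool.Agent.J5.H37.AM.Mod2

/-!
# Parallel strands, and four strands
-/

set_option autoImplicit false

namespace Pool.Agent.J5.H37.AM

open Finset LaurentPolynomial Pool.Agent.H891R2.Jones Pool.Agent.W639.RB Pool.Agent.Y463.SK
  Pool.Agent.J5.H37.UJ Pool.Agent.J5.H37.FD

/-- the change of the normalised polynomial, parallel strands -/
theorem ff_par {n : ℕ} {x v : List (Bool × ℕ)} (hx : ∀ y ∈ x, y.2 < n) (hv : ∀ y ∈ v, y.2 < n)
    (he : expo x = 0) (O : Outer (n+1)) (hO : ∀ i, O.up i = O.up 0) :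
    ff O (x ++ v) - ff O v = un (owr O + expo v) * (brk O (x ++ v) - brk O v) := by
  rw [ff_brk O _ (lt' (lt_app hx hv)), ff_brk O _ (lt' hv), costS_par' _ _ (lt' (lt_app hx hv)) (pat_par' hO),
    costS_par' _ _ (lt' hv) (pat_par' hO), expo_append, he, zero_add]
  ring

theorem brk_of_ff {n : ℕ} {h : ℤ[T;T⁻¹]} {x v : List (Bool × ℕ)} (hx : ∀ y ∈ x, y.2 < n)
    (hv : ∀ y ∈ v, y.2 < n) (he : expo x = 0) (O : Outer (n+1)) (hO : ∀ i, O.up i = O.up 0)
    (hd : h ∣ ff O (x ++ v) - ff O v) : h ∣ brk O (x ++ v) - brk O v := by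
  rw [ff_par hx hv he O hO] at hd
  have h1 := Dvd.dvd.mul_left hd (un (-(owr O + expo v)))
  rwa [← mul_assoc, mul_comm (un (-(owr O + expo v))), un_inv, one_mul] at h1

/-- the general modulus for the test words -/
theorem tests_mod (n : ℕ) : ∃ κ : ℤ[T;T⁻¹], κ ≠ 0 ∧ ∀ (h : ℤ[T;T⁻¹]) (x : List (Letter (n+1))),
    expo (toN x) = 0 → (∀ w ∈ testWords n, h ∣ (dia (braidClosure (n+1)) (x ++ w)).fPoly - 1) →
    ∀ (O : Outer (n+1)) (v : List (Letter (n+1))),
      h ∣ κ * ((dia O (x ++ v)).bracket - (dia O v).bracket) := by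
  obtain ⟨κ, hκ, hf⟩ := factor n
  refine ⟨κ, hκ, fun h x he ht O v => ?_⟩
  rw [dia_br, dia_br, toN_append]
  refine hf h (toN x) (toN_lt' x) (fun t htt => ?_) O (toN v) (toN_lt' v)
  obtain ⟨w, hw, rfl⟩ := testWords_of_ts htt
  have h1 := ht w hw
  have h2 := test_one hw
  rw [dia_ff] at h2
  rw [dia_ff, toN_append, ← h2] at h1
  exact brk_of_ff (toN_lt' x) (toN_lt' w) he _ (fun _ => rfl) h1

/-- conversely -/
theorem mod_tests {n : ℕ} {h : ℤ[T;T⁻¹]} {x : List (Letter (n+1))} (he : expo (toN x) = 0)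
    (hb : ∀ (O : Outer (n+1)) (v : List (Letter (n+1))),
      h ∣ (dia O (x ++ v)).bracket - (dia O v).bracket) (w : List (Letter (n+1)))
    (hw : (dia (braidClosure (n+1)) w).fPoly = 1) :
    h ∣ (dia (braidClosure (n+1)) (x ++ w)).fPoly - 1 := by
  have h1 := hb (braidClosure (n+1)) w
  rw [← hw, dia_ff, dia_ff, toN_append, ff_par (toN_lt' x) (toN_lt' w) he _ (fun _ => rfl)]
  rw [dia_br, dia_br, toN_append] at h1
  exact Dvd.dvd.mul_left h1 _

theorem one_dvd_nat {n : ℕ} (hn : n = 1) (f : ℤ[T;T⁻¹]) : (n : ℤ[T;T⁻¹]) ∣ f := by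
  subst hn
  rw [Nat.cast_one]
  exact one_dvd _

/-- four strands: from the bracket -/
theorem four_brk {N : ℕ} {x : List (Letter 4)} (hb : ∀ (O : Outer 4) (v : List (Letter 4)),
      (N : ℤ[T;T⁻¹]) ∣ (dia O (x ++ v)).bracket - (dia O v).bracket) (hN : N ≠ 1)
    (hts : ∀ w ∈ tst, ∃ w' : List (Letter 4), toN w' = w) : expo (toN x) = 0 := by
  refine expo_zero' hN (toN_lt x) (brk_coords (toN_lt x) fun w hw => ?_)
  obtain ⟨w', rfl⟩ := hts w hw
  have := hb (braidClosure 4) w'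
  rwa [dia_br, dia_br, toN_append] at this

/-- four strands: parallel strands -/
theorem four_par {N : ℕ} {x : List (Letter 4)} (hN : N ≠ 1)
    (ht : ∀ w ∈ tst, (N : ℤ[T;T⁻¹]) ∣ ff (braidClosure 4) (toN x ++ w) - 1) (O : Outer 4)
    (hO : ∀ i, O.up i = O.up 0) (v : List (Letter 4)) :
    (N : ℤ[T;T⁻¹]) ∣ (dia O (x ++ v)).fPoly - (dia O v).fPoly := by
  have he := expo_zero hN (toN_lt x) (coords_of_tests (toN_lt x) ht)
  rw [dia_ff, dia_ff, toN_append, ff_par (n := 3) (toN_lt' (n := 3) x) (toN_lt' (n := 3) v) he O hO]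
  exact Dvd.dvd.mul_left (tests_brk (toN_lt x) ht O (toN_lt v)) _

end Pool.Agent.J5.H37.AM
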