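import Pool.Agent.J5.H37.AM.Span

/-!
# The span of the tests modulo an element of a ring
-/

set_option autoImplicit false

namespace Pool.Agent.J5.H37.AM

open Pool.Agent.Y463.SK

section

variable {R B : Type*} [CommRing R] [Ring B] [Algebra R B] {m : ℕ} {A A' d g : R} {e : ℕ → B}

theorem ltr_invR (h : IsTLr m d e) (hA : A * A' = 1) (hd : d = -A ^ 2 - A' ^ 2) (b : Bool) (i : ℕ)
    (hi : i + 1 < m) : ltr A A' e (!b, i) * ltr A A' e (b, i) = 1 := by
  have h1 := h.sq i hi
  cases b
  · simp only [ltr, Bool.not_false, if_true, Bool.false_eq_true, if_false, add_mul, mul_add,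
      smul_mul_assoc, mul_smul_comm, one_mul, mul_one, smul_smul, h1]
    rw [hd]
    match_scalars <;> first | ring1 | linear_combination hA | linear_combination (-(A ^ 2 + A' ^ 2)) * hA
  · simp only [ltr, Bool.not_true, if_true, Bool.false_eq_true, if_false, add_mul, mul_add,
      smul_mul_assoc, mul_smul_comm, one_mul, mul_one, smul_smul, h1]
    rw [hd]
    match_scalars <;> first | ring1 | linear_combination hA | linear_combination (-(A ^ 2 + A' ^ 2)) * hA

theorem wd_consR (x : Bool × ℕ) (w : List (Bool × ℕ)) :
    wd A A' e (x :: w) = ltr A A' e x * wd A A' e w := by simp [wd]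

theorem wd_nilR : wd A A' e [] = 1 := by simp [wd]

theorem wd_invR (h : IsTLr m d e) (hA : A * A' = 1) (hd : d = -A ^ 2 - A' ^ 2) :
    ∀ w : List (Bool × ℕ), (∀ x ∈ w, x.2 + 1 < m) → wd A A' e (invL w) * wd A A' e w = 1
  | [], _ => by
    have : invL ([] : List (Bool × ℕ)) = [] := rfl
    rw [this, wd_nilR, one_mul]
  | (x :: w), hw => by
    have h1 : invL (x :: w) = invL w ++ [(!x.1, x.2)] := by simp [invL]
    have h2 := wd_invR h hA hd w (fun y hy => hw y (List.mem_cons_of_mem _ hy))
    have h3 := ltr_invR h hA hd x.1 x.2 (hw x List.mem_cons_self)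
    rw [h1, wd_append, wd_consR, wd_nilR, mul_one, wd_consR, mul_assoc, ← mul_assoc (ltr A A' e (!x.1, x.2)),
      h3, one_mul, h2]

/-- right multiplication by words -/
theorem SS_mul_wdR (h : IsTLr m d e) {n : ℕ} (hn : n + 1 ≤ m) : ∀ (u : List (Bool × ℕ)),
    (∀ x ∈ u, x.2 < n) → ∀ y ∈ SS R e n, y * wd A A' e u ∈ SS R e n
  | [], _, y, hy => by rw [wd_nilR, mul_one]; exact hy
  | (x :: u), hu, y, hy => by
    rw [wd_consR, ← mul_assoc]
    refine SS_mul_wdR h hn u (fun z hz => hu z (List.mem_cons_of_mem _ hz)) _ ?_
    have h1 := mul_e_mem h n hn x.2 (hu x List.mem_cons_self) y hy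
    unfold ltr
    split_ifs
    · rw [mul_add, mul_smul_comm, mul_smul_comm, mul_one]
      exact Submodule.add_mem _ (Submodule.smul_mem _ _ hy) (Submodule.smul_mem _ _ h1)
    · rw [mul_add, mul_smul_comm, mul_smul_comm, mul_one]
      exact Submodule.add_mem _ (Submodule.smul_mem _ _ hy) (Submodule.smul_mem _ _ h1)

/-- `μ` is divisible on the products of the words on `n + 1` strands with `b` -/
def Kr (g A A' : R) (e : ℕ → B) (n : ℕ) (μ : B →ₗ[R] R) (b : B) : Prop :=
  ∀ u : List (Bool × ℕ), (∀ x ∈ u, x.2 < n) → g ∣ μ (wd A A' e u * b)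

theorem Kr.add {n : ℕ} {μ : B →ₗ[R] R} {b b' : B} (h : Kr g A A' e n μ b) (h' : Kr g A A' e n μ b') :
    Kr g A A' e n μ (b + b') := by
  intro u hu
  rw [mul_add, map_add]
  exact dvd_add (h u hu) (h' u hu)

theorem Kr.smul {n : ℕ} {μ : B →ₗ[R] R} {b : B} (h : Kr g A A' e n μ b) (r : R) :
    Kr g A A' e n μ (r • b) := by
  intro u hu
  rw [mul_smul_comm, map_smul, smul_eq_mul]
  exact Dvd.dvd.mul_left (h u hu) _

theorem Kr.wd {n : ℕ} {μ : B →ₗ[R] R} {b : B} (h : Kr g A A' e n μ b) {v : List (Bool × ℕ)}
    (hv : ∀ x ∈ v, x.2 < n) : Kr g A A' e n μ (wd A A' e v * b) := by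
  intro u hu
  rw [← mul_assoc, ← wd_append]
  refine h _ fun x hx => ?_
  rcases List.mem_append.1 hx with hx | hx
  · exact hu x hx
  · exact hv x hx

theorem e_eqR (hA : A * A' = 1) (i : ℕ) : e i = A • ltr A A' e (true, i) + (-A ^ 2) • (1 : B) := by
  simp only [ltr, if_true, smul_add, smul_smul, hA, one_smul]
  module

theorem Kr.gen {n : ℕ} {μ : B →ₗ[R] R} {b : B} (hA : A * A' = 1) (h : Kr g A A' e n μ b) {i : ℕ}
    (hi : i < n) : Kr g A A' e n μ (e i * b) := by
  have h1 : e i * b = A • (Pool.Agent.Y463.SK.wd A A' e [(true, i)] * b) + (-A ^ 2) • b := by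
    conv_lhs => rw [e_eqR (A := A) (A' := A') (e := e) hA i]
    rw [wd_consR, wd_nilR, mul_one, add_mul, smul_mul_assoc, smul_mul_assoc, one_mul]
  rw [h1]
  refine ((h.wd ?_).smul _).add (h.smul _)
  intro x hx
  rw [List.mem_singleton] at hx
  rw [hx]
  exact hi

theorem Kr.dp {n : ℕ} {μ : B →ₗ[R] R} {b : B} (hA : A * A' = 1) (h : Kr g A A' e n μ b) {r : ℕ}
    (hr : r < n) : ∀ k, Kr g A A' e n μ (dp e r k * b) := by
  intro k
  induction k generalizing b with
  | zero => rw [Pool.Agent.Y463.SK.dp, one_mul]; exact h
  | succ k ih =>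
    rw [Pool.Agent.Y463.SK.dp, mul_assoc]
    exact ih (h.gen hA (by omega))

theorem Kr.wl {n : ℕ} {μ : B →ₗ[R] R} (hA : A * A' = 1) : ∀ r, r ≤ n → ∀ x ∈ wl e r, ∀ b,
    Kr g A A' e n μ b → Kr g A A' e n μ (x * b)
  | 0, _, x, hx, b, h => by
    rw [Pool.Agent.Y463.SK.wl, List.mem_singleton] at hx
    rw [hx, one_mul]
    exact h
  | (r+1), hr, x, hx, b, h => by
    rw [Pool.Agent.Y463.SK.wl, List.mem_flatMap] at hx
    obtain ⟨k, _, hx⟩ := hx
    obtain ⟨y, hy, rfl⟩ := List.mem_map.1 hx
    rw [mul_assoc]
    exact Kr.wl hA r (by omega) y hy _ (h.dp hA (by omega) k)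

theorem span_dvd {μ : B →ₗ[R] R} {n : ℕ} (h : ∀ z ∈ wl e n, g ∣ μ z) : ∀ y ∈ SS R e n, g ∣ μ y := by
  intro y hy
  unfold SS at hy
  induction hy using Submodule.span_induction with
  | mem x hx => exact h x hx
  | zero => rw [map_zero]; exact dvd_zero _
  | add x y _ _ hx hy => rw [map_add]; exact dvd_add hx hy
  | smul a x _ hx => rw [map_smul, smul_eq_mul]; exact Dvd.dvd.mul_left hx _

/-- the spanning theorem -/
theorem span_tsR (h : IsTLr m d e) (hA : A * A' = 1) (hg : ∀ a, g ∣ (A ^ 2 - A' ^ 2) * a → g ∣ a)
    (hd : d = -A ^ 2 - A' ^ 2) : ∀ (n : ℕ), n + 1 ≤ m → ∀ (μ : B →ₗ[R] R),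
    (∀ w ∈ ts n, g ∣ μ (wd A A' e w)) → ∀ y ∈ SS R e n, g ∣ μ y
  | 0, _, μ, hμ => by
    have h0 := hμ [] (by simp [ts])
    rw [wd_nilR] at h0
    refine span_dvd fun z hz => ?_
    rw [Pool.Agent.Y463.SK.wl, List.mem_singleton] at hz
    rw [hz]
    exact h0
  | (n+1), hn, μ, hμ => by
    have hdsm : ∀ {k : ℕ}, k ≤ n → ∀ x ∈ ds (n-1) k, x.2 + 1 < m := by
      intro k hk x hx
      have := ds_lt hk x hx
      omega
    -- step 1
    have s1 : ∀ k ≤ n, ∀ s : Bool, Kr g A A' e n μ (ltr A A' e (s, n) * wd A A' e (ds (n-1) k)) := by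
      intro k hk s u hu
      have ih := span_tsR h hA hg hd n (by omega)
        (μ ∘ₗ (LinearMap.mulLeft R (wd A A' e (invL (ds (n-1) k)))) ∘ₗ
          (LinearMap.mulRight R (ltr A A' e (s, n) * wd A A' e (ds (n-1) k)))) (by
          intro w hw
          have := hμ _ (ts_mem hk s hw)
          rw [wd_append, wd_append, wd_consR] at this
          exact this)
        (wd A A' e (ds (n-1) k ++ u)) (by
          have := SS_mul_wdR h (n := n) (by omega) (ds (n-1) k ++ u) (by
            intro x hx
            rcases List.mem_append.1 hx with hx | hx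
            · exact ds_lt hk x hx
            · exact hu x hx) 1 (one_mem_SS n) (A := A) (A' := A')
          rwa [one_mul] at this)
      have h5 := wd_invR h hA hd (ds (n-1) k) (hdsm hk)
      have h6 : wd A A' e (invL (ds (n-1) k)) * (wd A A' e (ds (n-1) k ++ u) *
          (ltr A A' e (s, n) * wd A A' e (ds (n-1) k))) =
          wd A A' e u * (ltr A A' e (s, n) * wd A A' e (ds (n-1) k)) := by
        rw [wd_append, mul_assoc (wd A A' e (ds (n-1) k)), ← mul_assoc (wd A A' e (invL (ds (n-1) k))),
          h5, one_mul]
      rw [← h6]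
      exact ih
    -- step 2
    have s2 : ∀ k ≤ n, Kr g A A' e n μ (e n * wd A A' e (ds (n-1) k)) ∧
        Kr g A A' e n μ (wd A A' e (ds (n-1) k)) := by
      intro k hk
      have ht := s1 k hk true
      have hf := s1 k hk false
      set β := wd A A' e (ds (n-1) k) with hβ
      simp only [ltr, if_true, Bool.false_eq_true, if_false] at ht hf
      constructor
      · intro u hu
        have t1 := ht u hu
        have t2 := hf u hu
        rw [add_mul, mul_add, map_add, smul_mul_assoc, smul_mul_assoc, mul_smul_comm, mul_smul_comm,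
          map_smul, map_smul, one_mul, smul_eq_mul, smul_eq_mul] at t1 t2
        apply hg
        have := dvd_sub (Dvd.dvd.mul_left t2 A) (Dvd.dvd.mul_left t1 A')
        refine this.trans (dvd_of_eq ?_)
        ring
      · intro u hu
        have t1 := ht u hu
        have t2 := hf u hu
        rw [add_mul, mul_add, map_add, smul_mul_assoc, smul_mul_assoc, mul_smul_comm, mul_smul_comm,
          map_smul, map_smul, one_mul, smul_eq_mul, smul_eq_mul] at t1 t2
        apply hg
        have := dvd_sub (Dvd.dvd.mul_left t1 A) (Dvd.dvd.mul_left t2 A')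
        refine this.trans (dvd_of_eq ?_)
        ring
    have s3 : Kr g A A' e n μ 1 := by
      have := (s2 0 (Nat.zero_le n)).2
      have h8 : ds (n-1) 0 = [] := rfl
      rwa [h8, wd_nilR] at this
    -- step 5
    have s5 : ∀ k, k ≤ n + 1 → Kr g A A' e n μ (dp e n k) := by
      intro k
      induction k using Nat.strong_induction_on with
      | _ k ih =>
        intro hk
        rcases Nat.eq_zero_or_pos k with rfl | hk0
        · rw [Pool.Agent.Y463.SK.dp]; exact s3
        · have s6 : ∀ j, 1 ≤ j → j ≤ k → Kr g A A' e n μ (dp e n j * wd A A' e (ds (n-j) (k-j))) := by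
            intro j
            induction j with
            | zero => intro h9; omega
            | succ j ihj =>
              intro _ hjk
              rcases Nat.eq_zero_or_pos j with rfl | hj0
              · have e1 : dp e n (0+1) = e n := by simp [Pool.Agent.Y463.SK.dp]
                rw [e1]
                exact (s2 (k - 1) (by omega)).1
              · have h9 := ihj hj0 (by omega)
                have e1 : k - j = (k - (j+1)) + 1 := by omega
                have e2 : n - j - 1 = n - (j+1) := by omega
                rw [e1, ds_cons, wd_consR, e2] at h9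
                set ρ := wd A A' e (ds (n-(j+1)) (k-(j+1))) with hρ
                have e3 : dp e n (j+1) = dp e n j * e (n - j) := rfl
                -- the commutation
                have hc : dp e n j * ρ = ρ * dp e n j := by
                  have hcom : ∀ l : List (Bool × ℕ), (∀ x ∈ l, x.2 + j + 1 ≤ n) →
                      Commute (wd A A' e l) (dp e n j) := by
                    intro l
                    induction l with
                    | nil => intro _; rw [wd_nilR]; exact Commute.one_left _
                    | cons x l ihl =>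
                      intro hl
                      rw [wd_consR]
                      refine Commute.mul_left ?_ (ihl fun z hz => hl z (List.mem_cons_of_mem _ hz))
                      have hx := hl x List.mem_cons_self
                      have hce : Commute (e x.2) (dp e n j) :=
                        comm_dp j (by omega) (fun q h4 h5 => h.far x.2 q (by omega) (by omega))
                      unfold ltr
                      split_ifs
                      · exact ((Commute.one_left _).smul_left _).add_left (hce.smul_left _)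
                      · exact ((Commute.one_left _).smul_left _).add_left (hce.smul_left _)
                  exact (hcom _ (by
                    intro x hx
                    obtain ⟨q, hq, rfl⟩ := List.mem_map.1 hx
                    rw [List.mem_range] at hq
                    show n - (j+1) - q + j + 1 ≤ n
                    omega)).symm.eq
                have h10 : Kr g A A' e n μ (ρ * dp e n j) := by
                  refine Kr.wd (ih j (by omega) (by omega)) ?_
                  intro x hx
                  obtain ⟨q, hq, rfl⟩ := List.mem_map.1 hx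
                  rw [List.mem_range] at hq
                  show n - (j+1) - q < n
                  omega
                rw [← hc] at h10
                have h11 : dp e n (j+1) * ρ = A • (dp e n j * (ltr A A' e (true, n-j) * ρ)) +
                    (-A ^ 2) • (dp e n j * ρ) := by
                  rw [e3]
                  simp only [ltr, if_true, add_mul, mul_add, smul_mul_assoc, mul_smul_comm, one_mul,
                    smul_add, smul_smul, hA, one_smul, mul_assoc]
                  module
                rw [h11]
                exact (h9.smul _).add (h10.smul _)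
          have h12 := s6 k hk0 le_rfl
          rw [Nat.sub_self] at h12
          have h13 : ds (n-k) 0 = [] := rfl
          rwa [h13, wd_nilR, mul_one] at h12
    -- the end
    refine span_dvd fun z hz => ?_
    rw [Pool.Agent.Y463.SK.wl, List.mem_flatMap] at hz
    obtain ⟨k, hk, hz⟩ := hz
    obtain ⟨x, hx, rfl⟩ := List.mem_map.1 hz
    rw [List.mem_range] at hk
    have := Kr.wl hA n le_rfl x hx _ (s5 k (by omega)) [] (by simp)
    rwa [wd_nilR, one_mul] at this

end

end Pool.Agent.J5.H37.AM
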