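import Pool.Agent.J5.H37.AM.Loops
import Pool.Agent.J5.H37.AM.SpanR
import Pool.Agent.J5.H37.AM.Four

/-!
# The matrices of the matchings
-/

set_option autoImplicit false

namespace Pool.Agent.J5.H37.AM

open Finset LaurentPolynomial Pool.Agent.H891R2.Jones Pool.Agent.W639.RB Pool.Agent.Y463.SK
  Pool.Agent.J5.H37.UJ Pool.Agent.J5.H37.FD

variable {m : ℕ}

/-- the points -/
abbrev Pt (m : ℕ) : Type := Fin m ⊕ Fin m

/-- the matrix of a matching -/
noncomputable def mM (τ : Equiv.Perm (Pt m)) (N : ℕ) : MM m N := fun y z => cst τ (Sum.elim y z)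

theorem elim_upd {N : ℕ} (y z : Fin m → Fin N) (p q : Fin m) (c : Fin N) :
    Sum.elim (upd y p q c) z = up2 (Sum.elim y z) (Sum.inl p) (Sum.inl q) c := by
  funext i
  rcases i with i | i
  · simp [up2, upd]
  · simp [up2]

open Classical in
theorem mE_mul_mM {N : ℕ} (τ : Equiv.Perm (Pt m)) (hτ : IsMt τ) {p q : Fin m} (hpq : p ≠ q) :
    mE p q * mM τ N = if τ (Sum.inl p) = Sum.inl q then (N : ℂ) • mM τ N
      else mM (stp τ (Sum.inl p) (Sum.inl q)) N := by
  funext y z
  rw [← EE_mul, EE_apply]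
  have h1 : (if y p = y q then ∑ c, (mM τ N : (Fin m → Fin N) → ((Fin m → Fin N) → ℂ)) (upd y p q c) else 0 :
      (Fin m → Fin N) → ℂ) z = (∑ c, cst τ (up2 (Sum.elim y z) (Sum.inl p) (Sum.inl q) c)) *
        ind ((Sum.elim y z) (Sum.inl p) = (Sum.elim y z) (Sum.inl q)) := by
    have h2 : ind ((Sum.elim y z : Pt m → Fin N) (Sum.inl p) = (Sum.elim y z) (Sum.inl q)) =
        ind (y p = y q) := rfl
    rw [h2]
    by_cases hy : y p = y q
    · rw [if_pos hy, ind_pos hy, mul_one, Finset.sum_apply]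
      refine Finset.sum_congr rfl fun c _ => ?_
      rw [← elim_upd]
      rfl
    · rw [if_neg hy, ind_neg hy, mul_zero]
      rfl
  have hPQ : (Sum.inl p : Pt m) ≠ Sum.inl q := fun h => hpq (Sum.inl_injective h)
  refine h1.trans ?_
  split_ifs with h3
  · rw [sum_same hτ hPQ h3]
    rfl
  · rw [sum_diff hτ hPQ h3]
    rfl

/-- the identity -/
def idm (m : ℕ) : Equiv.Perm (Pt m) := Equiv.sumComm (Fin m) (Fin m)

theorem idm_mt : IsMt (idm m) := by
  refine ⟨fun i => ?_, fun i => ?_⟩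
  · rcases i with i | i <;> rfl
  · rcases i with i | i <;> simp [idm]

theorem mM_idm (N : ℕ) : mM (idm m) N = 1 := by
  rw [← delta_eq]
  funext y z
  show ind _ = ind _
  apply ind_congr
  constructor
  · intro h
    funext i
    exact h (Sum.inr i)
  · rintro rfl i
    rcases i with i | i <;> rfl

/-- the element of the product algebra -/
noncomputable def lB (M : ∀ N : NN, MM m N.1) : BB m := fun N => (LinearMap.mulLeft ℂ (M N) :
  Module.End ℂ (MM m N.1))

theorem lB_apply (M : ∀ N : NN, MM m N.1) (N : NN) (g : MM m N.1) : (lB M N) g = (M N * g : MM m N.1) := rfl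

/-- the element of a matching -/
noncomputable def bM (τ : Equiv.Perm (Pt m)) : BB m := lB fun N => mM τ N.1

theorem bM_idm : bM (idm m) = 1 := by
  funext N
  apply LinearMap.ext
  intro g
  unfold bM
  rw [lB_apply, mM_idm, one_mul]
  rfl

theorem EB_bM (τ : Equiv.Perm (Pt m)) (hτ : IsMt τ) (i : ℕ) : EB m i * bM τ = 0 ∨
    ∃ (k : ℕ) (σ : Equiv.Perm (Pt m)), IsMt σ ∧ EB m i * bM τ = dd ^ k • bM σ := by
  classical
  by_cases hi : i + 1 < m
  · right
    have hpq : (⟨i, Nat.lt_of_succ_lt hi⟩ : Fin m) ≠ ⟨i+1, hi⟩ := by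
      intro h
      have := congrArg Fin.val h
      simp at this
    have h0 : ∀ N : NN, me m N.1 i = mE ⟨i, Nat.lt_of_succ_lt hi⟩ ⟨i+1, hi⟩ := by
      intro N
      unfold me
      rw [dif_pos hi]
    by_cases hc : τ (Sum.inl ⟨i, Nat.lt_of_succ_lt hi⟩) = Sum.inl ⟨i+1, hi⟩
    · refine ⟨1, τ, hτ, ?_⟩
      funext N
      apply LinearMap.ext
      intro (g : MM m N.1)
      rw [BB_mul, Module.End.mul_apply, BB_smul, LinearMap.smul_apply, pow_one, ev_dd]
      have h1 : (EB m i N) ((bM τ N) g) = (me m N.1 i * (mM τ N.1 * g) : MM m N.1) := ee_mul i _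
      have h2 : (bM τ N) g = (mM τ N.1 * g : MM m N.1) := rfl
      rw [h1, h2, ← mul_assoc, h0, mE_mul_mM τ hτ hpq, if_pos hc, smul_mul_assoc]
      rfl
    · refine ⟨0, stp τ (Sum.inl ⟨i, Nat.lt_of_succ_lt hi⟩) (Sum.inl ⟨i+1, hi⟩), stp_mt hτ _ _, ?_⟩
      rw [pow_zero, one_smul]
      funext N
      apply LinearMap.ext
      intro (g : MM m N.1)
      rw [BB_mul, Module.End.mul_apply]
      have h1 : (EB m i N) ((bM τ N) g) = (me m N.1 i * (mM τ N.1 * g) : MM m N.1) := ee_mul i _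
      rw [h1, ← mul_assoc, h0, mE_mul_mM τ hτ hpq, if_neg hc]
      rfl
  · left
    rw [EB_zero m i (by omega), zero_mul]

/-- the words in the generators -/
theorem closure_form {w : BB m} (hw : w ∈ Submonoid.closure (Set.range (EB m))) : w = 0 ∨
    ∃ (k : ℕ) (σ : Equiv.Perm (Pt m)), IsMt σ ∧ w = dd ^ k • bM σ := by
  induction hw using Submonoid.closure_induction_left with
  | one =>
    right
    exact ⟨0, idm m, idm_mt, by rw [pow_zero, one_smul, bM_idm]⟩
  | mul_left x hx y _ ih =>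
    obtain ⟨i, rfl⟩ := hx
    rcases ih with rfl | ⟨k, σ, hσ, rfl⟩
    · left
      rw [mul_zero]
    · rcases EB_bM σ hσ i with h | ⟨k', σ', hσ', h⟩
      · left
        rw [mul_smul_comm, h, smul_zero]
      · right
        refine ⟨k + k', σ', hσ', ?_⟩
        rw [mul_smul_comm, h, smul_smul, pow_add]

/-- the matchings which occur -/
abbrev PP (m : ℕ) : Type :=
  {τ : Equiv.Perm (Pt m) // IsMt τ ∧ ∃ k : ℕ, (dd ^ k • bM τ : BB m) ∈ Sm m}

noncomputable instance (m : ℕ) : Fintype (PP m) := Fintype.ofFinite _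

theorem mem_span_PP {z : BB m} (hz : z ∈ Sm m) :
    z ∈ Submodule.span ℤ[T;T⁻¹] (Set.range fun τ : PP m => (bM τ.1 : BB m)) := by
  have h1 : z ∈ Subalgebra.toSubmodule (Sm m) := hz
  rw [Algebra.adjoin_eq_span] at h1
  refine Submodule.span_le.2 ?_ h1
  intro w hw
  have hwS : w ∈ Sm m := by
    have : w ∈ Subalgebra.toSubmodule (Sm m) := by
      rw [Algebra.adjoin_eq_span]
      exact Submodule.subset_span hw
    exact this
  rcases closure_form hw with rfl | ⟨k, σ, hσ, rfl⟩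
  · exact Submodule.zero_mem _
  · exact Submodule.smul_mem _ _ (Submodule.subset_span ⟨⟨σ, hσ, k, hwS⟩, rfl⟩)

/-! ### the transposed elements -/

theorem me_tr (m N i : ℕ) : (me m N i).transpose = me m N i := by
  unfold me
  split_ifs with h
  · funext x y
    rw [Matrix.transpose_apply]
    unfold mE
    rw [ind_mul, ind_mul]
    apply ind_congr
    constructor
    · rintro ⟨h1, h2, h3⟩
      exact ⟨fun j a b => (h1 j a b).symm, h3.symm, h2.symm⟩
    · rintro ⟨h1, h2, h3⟩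
      exact ⟨fun j a b => (h1 j a b).symm, h3.symm, h2.symm⟩
  · exact Matrix.transpose_zero

theorem transp {z : BB m} (hz : z ∈ Sm m) : ∃ z' ∈ Sm m, ∀ N : NN, ∃ M : MM m N.1,
    (∀ g : MM m N.1, (z N) g = (M * g : MM m N.1)) ∧
    (∀ g : MM m N.1, (z' N) g = (M.transpose * g : MM m N.1)) := by
  induction hz using Algebra.adjoin_induction with
  | mem b hb =>
    obtain ⟨i, rfl⟩ := hb
    refine ⟨EB m i, Algebra.subset_adjoin ⟨i, rfl⟩, fun N => ⟨me m N.1 i, fun g => ee_mul i g, fun g => ?_⟩⟩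
    rw [me_tr]
    exact ee_mul i g
  | algebraMap r =>
    refine ⟨algebraMap _ _ r, Subalgebra.algebraMap_mem _ _, fun N => ⟨ev N.1 N.2 r • 1, fun g => ?_,
      fun g => ?_⟩⟩
    · rw [Algebra.algebraMap_eq_smul_one, BB_smul, smul_mul_assoc, one_mul]
      rfl
    · rw [Algebra.algebraMap_eq_smul_one, BB_smul, Matrix.transpose_smul, Matrix.transpose_one,
        smul_mul_assoc, one_mul]
      rfl
  | add b c _ _ hb hc =>
    obtain ⟨b', hb', h1⟩ := hb
    obtain ⟨c', hc', h2⟩ := hc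
    refine ⟨b' + c', Subalgebra.add_mem _ hb' hc', fun N => ?_⟩
    obtain ⟨M, a1, a2⟩ := h1 N
    obtain ⟨M', a3, a4⟩ := h2 N
    refine ⟨M + M', fun g => ?_, fun g => ?_⟩
    · rw [BB_add, LinearMap.add_apply, a1, a3, add_mul]
      rfl
    · rw [BB_add, LinearMap.add_apply, a2, a4, Matrix.transpose_add, add_mul]
      rfl
  | mul b c _ _ hb hc =>
    obtain ⟨b', hb', h1⟩ := hb
    obtain ⟨c', hc', h2⟩ := hc
    refine ⟨c' * b', Subalgebra.mul_mem _ hc' hb', fun N => ?_⟩
    obtain ⟨M, a1, a2⟩ := h1 N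
    obtain ⟨M', a3, a4⟩ := h2 N
    refine ⟨M * M', fun g => ?_, fun g => ?_⟩
    · rw [BB_mul, Module.End.mul_apply, a3, a1, mul_assoc]
    · rw [BB_mul, Module.End.mul_apply, a2, a4, Matrix.transpose_mul, mul_assoc]

/-- the trace of a product -/
theorem trace_mM {N : ℕ} (τ σ : Equiv.Perm (Pt m)) :
    (mM τ N * (mM σ N).transpose).trace = (N : ℂ) ^ lp τ σ := by
  rw [← sum_cst τ σ, ← (Equiv.sumArrowEquivProdArrow (Fin m) (Fin m) (Fin N)).symm.sum_comp,
    Fintype.sum_prod_type]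
  unfold Matrix.trace
  refine Finset.sum_congr rfl fun y _ => ?_
  rw [Matrix.diag_apply, Matrix.mul_apply]
  refine Finset.sum_congr rfl fun z _ => ?_
  rw [Matrix.transpose_apply]
  rfl

end Pool.Agent.J5.H37.AM
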