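import Pool.Agent.J5.H37.AM.IntMod
import Pool.Agent.N571.TLF.Fam

/-!
# The number of the powers with a given polynomial
-/

set_option autoImplicit false

namespace Pool.Agent.J5.H37.AM

open Finset LaurentPolynomial Pool.Agent.H891R2.Jones Pool.Agent.W639.RB Pool.Agent.Y463.SK
  Pool.Agent.J5.H37.UJ

theorem powW_one {m : ℕ} (x : List (Letter m)) : powW x 1 = x := by
  show (List.replicate 1 x).flatten = x
  simp

theorem powW_zero {m : ℕ} (x : List (Letter m)) : powW x 0 = [] := rfl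

theorem detect2 {n : ℕ} {x : List (Letter (n+1))} (hx : IsPure x)
    (hv : ∃ (O : Outer (n+1)) (v : List (Letter (n+1))), (dia O (x ++ v)).bracket ≠ (dia O v).bracket) :
    ∃ w ∈ testWords n, ∀ (F : ℤ[T;T⁻¹]) (Z : Finset ℤ),
      (∀ k ∈ Z, (dia (braidClosure (n+1)) (powW x k ++ w)).fPoly = F) →
        Z.card ≤ (n+1).choose ((n+1) / 2) := by
  classical
  have h1 : ¬ ∀ w ∈ testWords n, (dia (braidClosure (n+1)) (x ++ w)).fPoly = 1 := by
    intro h
    obtain ⟨O, v, hOv⟩ := hv
    exact hOv (brk_iff_tr.2 (pass_iff_tr.1 h) O v)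
  push Not at h1
  obtain ⟨w, hw, hwn⟩ := h1
  refine ⟨w, hw, fun F Z hZ => ?_⟩
  have key : ∀ q : Fin 1 → ℤ, multiW (fun _ : Fin 1 => x) (fun _ => w)
      (Pool.Agent.N571.TLF.expo (fun _ _ => 1) (fun _ => 0) q) = powW x (q 0) ++ w := by
    intro q
    have h2 : ∀ i : Fin 1, Pool.Agent.N571.TLF.expo (fun _ _ => 1) (fun _ => 0) q i = q 0 := by
      intro i
      simp [Pool.Agent.N571.TLF.expo]
    simp [multiW, h2]
  rcases Pool.Agent.N571.TLF.family (r := 1) (Nat.succ_pos n) (braidClosure (n+1)) (fun _ : Fin 1 => x)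
    (fun _ => w) (fun _ _ => 1) (fun _ => 0) (fun _ _ => by rw [powW_one]; exact hx) (fun _ => 0)
    (fun _ => n + 1) (fun _ => Nat.succ_pos n) (fun _ => by omega)
    (fun _ y _ => ⟨Nat.zero_le _, by have := y.2.2; omega⟩) F with h2 | h2
  · exfalso
    apply hwn
    have h3 := h2 (fun _ => 1)
    have h4 := h2 (fun _ => 0)
    rw [key, powW_one] at h3
    rw [key, powW_zero, List.nil_append, test_one hw] at h4
    rw [h3, ← h4]
  · have h3 := h2 (fun _ => Z)
    have h4 : (Fintype.piFinset (fun _ : Fin 1 => Z)).filter (fun q =>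
        (dia (braidClosure (n+1)) (multiW (fun _ : Fin 1 => x) (fun _ => w)
          (Pool.Agent.N571.TLF.expo (fun _ _ => 1) (fun _ => 0) q))).fPoly = F) =
        Fintype.piFinset (fun _ : Fin 1 => Z) := by
      apply Finset.filter_true_of_mem
      intro q hq
      rw [key]
      exact hZ _ (Fintype.mem_piFinset.1 hq 0)
    rw [h4, Fintype.card_piFinset] at h3
    simpa using h3

end Pool.Agent.J5.H37.AM
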