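import Pool.Agent.J5.H37.AM.Knot
import Pool.Agent.J5.H37.FD.Inv

/-!
# The tests with letters
-/

set_option autoImplicit false

namespace Pool.Agent.J5.H37.AM

open Finset LaurentPolynomial Pool.Agent.H891R2.Jones Pool.Agent.W639.RB Pool.Agent.Y463.SK
  Pool.Agent.J5.H37.UJ Pool.Agent.J5.H37.FD

theorem key_fst {α : Type*} (l : List α) :
    ([] ++ l.map (fun j => if true = true then (j, j) else (j, j))).map Prod.fst ++ [] ++ [] = l := by
  simp [List.map_map, Function.comp_def]

theorem key_snd {α : Type*} (l : List α) :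
    ([] ++ l.map (fun j => if true = true then (j, j) else (j, j))).map Prod.snd ++ [] ++ [] = l := by
  simp [List.map_map, Function.comp_def]

theorem closure_closed' (m : ℕ) : (braidClosure m).close.IsClosed := by
  have h1 : (braidClosure m).close.starts = List.finRange m := key_fst (List.finRange m)
  have h2 : (braidClosure m).close.ends = List.finRange m := key_snd (List.finRange m)
  intro p
  rw [h1, h2]
  refine ⟨?_, ?_⟩ <;> exact List.count_eq_one_of_mem (List.nodup_finRange m) (List.mem_finRange p)

/-- The descending word `σ_n σ_{n-1} ⋯` with `k` letters on `n + 2` strands (the letter `(s, j)` is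
`σ_{j+1}^{±1}`). -/
def desc (n k : ℕ) : List (Letter (n + 2)) :=
  (List.range k).map fun j => (true, ⟨n - 1 - j, by omega⟩)

/-- The same word, with one more strand. -/
def addStrand {n : ℕ} (w : List (Letter (n + 1))) : List (Letter (n + 2)) :=
  w.map fun x => (x.1, ⟨x.2.1, by have := x.2.2; omega⟩)

/-- The test words on `n + 1` strands: the empty word for `n = 0`, and for `n + 1` the words
`b⁻¹ w σ_{n+1}^{±1} b`, `w` a test word on `n + 1` strands and `b = σ_n σ_{n-1} ⋯` with `k` letters,
`0 ≤ k ≤ n`. -/
def testWords : (n : ℕ) → List (List (Letter (n + 1)))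
  | 0 => [[]]
  | (n + 1) => (List.range (n + 1)).flatMap fun k => [true, false].flatMap fun s =>
      (testWords n).map fun w =>
        invW (desc n k) ++ (addStrand w ++ ((s, ⟨n, by omega⟩) :: desc n k))

theorem testWords_toN : ∀ n : ℕ, (testWords n).map toN = ts n
  | 0 => by
    rw [testWords, ts]
    rfl
  | (n+1) => by
    have ih := testWords_toN n
    have h1 : ∀ k, toN (desc n k) = ds (n-1) k := by
      intro k
      unfold toN ds desc
      rw [List.map_map]
      rfl
    have h2 : ∀ w : List (Letter (n+1)), toN (addStrand w) = toN w := by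
      intro w
      unfold toN addStrand
      rw [List.map_map]
      rfl
    have h3 : ∀ (s : Bool) (w : List (Letter (n+2))), toN (((s, ⟨n, by omega⟩) : Letter (n+2)) :: w) =
        (s, n) :: toN w := fun _ _ => rfl
    rw [testWords, ts, List.map_flatMap]
    congr 1
    funext k
    rw [List.map_flatMap]
    congr 1
    funext s
    rw [← ih, List.map_map, List.map_map]
    refine List.map_congr_left fun w _ => ?_
    rw [Function.comp_apply, Function.comp_apply, toN_append, toN_inv, h1, toN_append, h2, h3, h1]

theorem length_testWords : ∀ n : ℕ, (testWords n).length = 2 ^ n * n.factorial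
  | 0 => by
    rw [testWords]
    rfl
  | (n+1) => by
    have ih := length_testWords n
    rw [testWords, List.length_flatMap]
    simp only [List.length_flatMap, List.length_map, ih, List.map_const', List.sum_replicate,
      List.length_range, List.length_cons, List.length_nil, smul_eq_mul]
    rw [Nat.factorial_succ, pow_succ]
    ring

theorem toN_testWords {n : ℕ} {w : List (Letter (n+1))} (h : w ∈ testWords n) : toN w ∈ ts n := by
  rw [← testWords_toN]
  exact List.mem_map.2 ⟨w, h, rfl⟩

theorem testWords_of_ts {n : ℕ} {t : List (Bool × ℕ)} (h : t ∈ ts n) : ∃ w ∈ testWords n, toN w = t := by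
  rw [← testWords_toN] at h
  exact List.mem_map.1 h

theorem toN_lt' {n : ℕ} (w : List (Letter (n+1))) : ∀ x ∈ toN w, x.2 < n := by
  intro x hx
  have := toN_lt w x hx
  omega

theorem dia_ff {m : ℕ} (O : Outer m) (w : List (Letter m)) : (dia O w).fPoly = ff O (toN w) := rfl

theorem dia_br {m : ℕ} (O : Outer m) (w : List (Letter m)) : (dia O w).bracket = brk O (toN w) := rfl

section

variable {n : ℕ}

theorem test_one {w : List (Letter (n+1))} (h : w ∈ testWords n) :
    (dia (braidClosure (n+1)) w).fPoly = 1 := by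
  rw [dia_ff]
  exact (ts_good n _ (toN_testWords h)).ff (toN_lt' w)

theorem test_knot {w : List (Letter (n+1))} (h : w ∈ testWords n) : IsKnotW w :=
  knot_of_cy (ts_cy n _ (toN_testWords h))

theorem pass_iff_tr {x : List (Letter (n+1))} :
    (∀ w ∈ testWords n, (dia (braidClosure (n+1)) (x ++ w)).fPoly = 1) ↔ Tr n (toN x) := by
  constructor
  · intro h
    refine tr_of_tests (toN_lt' x) fun t ht => ?_
    obtain ⟨w, hw, rfl⟩ := testWords_of_ts ht
    have := h w hw
    rwa [dia_ff, toN_append] at this
  · intro h w hw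
    have h1 := test_one hw
    rw [dia_ff] at h1 ⊢
    rw [toN_append]
    have hlt := toN_lt' w
    have h2 := brk_of_tr (toN_lt' x) h (braidClosure (n+1)) hlt
    rw [ff_closure' _ (lt' hlt)] at h1
    rw [ff_closure' _ (lt' (lt_app (toN_lt' x) hlt)), h2, expo_append, h.expo, zero_add, h1]

theorem brk_iff_tr {x : List (Letter (n+1))} :
    (∀ (O : Outer (n+1)) (v : List (Letter (n+1))), (dia O (x ++ v)).bracket = (dia O v).bracket) ↔
      Tr n (toN x) := by
  constructor
  · intro h
    refine tr_of_brk (toN_lt' x) fun t ht => ?_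
    obtain ⟨w, _, rfl⟩ := testWords_of_ts ht
    have := h (braidClosure (n+1)) w
    rwa [dia_br, dia_br, toN_append] at this
  · intro h O v
    rw [dia_br, dia_br, toN_append]
    exact brk_of_tr (toN_lt' x) h O (toN_lt' v)

theorem par_iff_tr {x : List (Letter (n+1))} :
    (∀ (O : Outer (n+1)), (∀ i, O.up i = O.up 0) → ∀ v : List (Letter (n+1)),
      (dia O (x ++ v)).fPoly = (dia O v).fPoly) ↔ Tr n (toN x) := by
  constructor
  · intro h
    rw [← pass_iff_tr]
    intro w hw
    rw [h (braidClosure (n+1)) (fun _ => rfl) w]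
    exact test_one hw
  · intro h O hO v
    rw [dia_ff, dia_ff, toN_append]
    have h1 := toN_lt' x
    have h2 := toN_lt' v
    rw [ff_brk O _ (lt' (lt_app h1 h2)), ff_brk O _ (lt' h2), brk_of_tr h1 h O h2,
      costS_par' _ _ (lt' (lt_app h1 h2)) (pat_par' hO), costS_par' _ _ (lt' h2) (pat_par' hO), expo_append,
      h.expo, zero_add]

theorem detect {x : List (Letter (n+1))} (hx : IsPure x)
    (hv : ∃ (O : Outer (n+1)) (v : List (Letter (n+1))), (dia O (x ++ v)).bracket ≠ (dia O v).bracket) :
    ∃ w ∈ testWords n, ∀ (F : ℤ[T;T⁻¹]) (Z : Finset ℤ),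
      (∀ k ∈ Z, (dia (braidClosure (n+1)) (powW x k ++ w)).fPoly = F) → Z.card ≤ (n+1).factorial := by
  have h1 : ¬ ∀ w ∈ testWords n, (dia (braidClosure (n+1)) (x ++ w)).fPoly = 1 := by
    intro h
    obtain ⟨O, v, hOv⟩ := hv
    exact hOv (brk_iff_tr.2 (pass_iff_tr.1 h) O v)
  push Not at h1
  obtain ⟨w, hw, hwn⟩ := h1
  refine ⟨w, hw, fun F Z hZ => ?_⟩
  have h3 : ∀ k : ℤ, (dia (braidClosure (n+1)) (powW x k ++ w)).fPoly =
      ff (braidClosure (n+1)) (powL (toN x) k ++ toN w) := by
    intro k
    rw [dia_ff, toN_append, toN_pow]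
  rcases single (Nat.succ_pos n) (braidClosure (n+1)) (toN x) (toN_lt x) (permL_of_pure hx) (toN w)
    (toN_lt w) F with h2 | h2
  · exfalso
    apply hwn
    have h5 := h2 1
    have h4 := h2 0
    have h6 : powL (toN x) 1 = toN x := by
      show (List.replicate 1 (toN x)).flatten = toN x
      simp
    have h7 : powL (toN x) 0 = [] := rfl
    rw [h6, ← toN_append, ← dia_ff] at h5
    rw [h7, List.nil_append, ← dia_ff, test_one hw] at h4
    rw [h5, ← h4]
  · exact h2 Z (fun k hk => by rw [← h3 k]; exact hZ k hk)

end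

end Pool.Agent.J5.H37.AM
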