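import Pool.Agent.J5.H37.AM.Brauer

/-!
# Integer moduli
-/

set_option autoImplicit false

namespace Pool.Agent.J5.H37.AM

open Finset Polynomial LaurentPolynomial Pool.Agent.H891R2.Jones Pool.Agent.W639.RB Pool.Agent.Y463.SK
  Pool.Agent.J5.H37.UJ Pool.Agent.J5.H37.FD

/-- generators in the subalgebra -/
noncomputable def eS (m i : ℕ) : Sm m := ⟨EB m i, Algebra.subset_adjoin ⟨i, rfl⟩⟩

theorem isTLr_eS (m : ℕ) : IsTLr m dd (eS m) where
  sq i hi := Subtype.ext ((isTLr_EB m).sq i hi)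
  up i hi := Subtype.ext ((isTLr_EB m).up i hi)
  down i hi := Subtype.ext ((isTLr_EB m).down i hi)
  far i j hj hij := Subtype.ext ((isTLr_EB m).far i j hj hij)

theorem eS_zero (m i : ℕ) (h : m ≤ i + 1) : eS m i = 0 := Subtype.ext (EB_zero m i h)

/-- words in the subalgebra -/
noncomputable def wS (m : ℕ) (w : List (Bool × ℕ)) : Sm m := wd (T 1 : ℤ[T;T⁻¹]) (T (-1)) (eS m) w

theorem wS_coe (m : ℕ) (w : List (Bool × ℕ)) : ((wS m w : Sm m) : BB m) = bb m w := by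
  induction w with
  | nil => rfl
  | cons x w ih =>
    have h1 : wS m (x :: w) = ltr (T 1 : ℤ[T;T⁻¹]) (T (-1)) (eS m) x * wS m w := wd_consR x w
    have h2 : bb m (x :: w) = ltr (T 1 : ℤ[T;T⁻¹]) (T (-1)) (EB m) x * bb m w := wd_consR x w
    rw [h1, h2, ← ih, Subalgebra.coe_mul]
    congr 1
    unfold ltr
    split_ifs <;> rfl

theorem SS_top (n : ℕ) (y : Sm (n+1)) : y ∈ SS ℤ[T;T⁻¹] (eS (n+1)) n := by
  have h1 : Algebra.adjoin ℤ[T;T⁻¹] (Set.range (eS (n+1))) = ⊤ := by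
    have h := Algebra.adjoin_adjoin_coe_preimage (R := ℤ[T;T⁻¹]) (s := Set.range (EB (n+1)))
    have h2 : (((↑) : Sm (n+1) → BB (n+1)) ⁻¹' Set.range (EB (n+1))) = Set.range (eS (n+1)) := by
      ext x
      constructor
      · rintro ⟨i, hi⟩
        exact ⟨i, Subtype.ext hi⟩
      · rintro ⟨i, rfl⟩
        exact ⟨i, rfl⟩
    rwa [h2] at h
  have h2 := adjoin_eq (isTLr_eS (n+1)) (Nat.succ_pos n) (eS_zero (n+1))
  have h3 : y ∈ Subalgebra.toSubmodule (Algebra.adjoin ℤ[T;T⁻¹] (Set.range (eS (n+1)))) := by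
    rw [h1]
    exact Submodule.mem_top
  rw [h2] at h3
  exact h3

/-- the trace -/
noncomputable def tf (n : ℕ) : Sm (n+1) →ₗ[ℤ[T;T⁻¹]] ℤ[T;T⁻¹] where
  toFun z := (fn_exists (Nat.succ_pos n) (braidClosure (n+1)) [] (by simp) z.1 z.2).choose
  map_add' z z' := by
    apply uniq
    intro N
    have e := fun y : Sm (n+1) =>
      (fn_exists (Nat.succ_pos n) (braidClosure (n+1)) [] (by simp) y.1 y.2).choose_spec N
    rw [e, map_add, mul_add, e, e]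
    exact Fn_add _ _ _ _ _
  map_smul' r z := by
    apply uniq
    intro N
    have e := fun y : Sm (n+1) =>
      (fn_exists (Nat.succ_pos n) (braidClosure (n+1)) [] (by simp) y.1 y.2).choose_spec N
    rw [e, smul_eq_mul, map_mul, mul_left_comm, RingHom.id_apply, e]
    exact Fn_smul _ _ _ _ _

theorem tf_spec (n : ℕ) (z : Sm (n+1)) (N : NN) :
    (N.1 : ℂ) * ev N.1 N.2 (tf n z) = Fn (braidClosure (n+1)) N [] z.1 :=
  (fn_exists (Nat.succ_pos n) (braidClosure (n+1)) [] (by simp) z.1 z.2).choose_spec N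

theorem rep_bb {m : ℕ} (x : List (Bool × ℕ)) (N : NN) (g : MM m N.1) :
    (bb m x N) g = (mw (Ar N.1) m N.1 x * g : MM m N.1) := by
  rw [bb_apply]
  exact rho_mul _ x g

/-- the trace of a product with known matrices -/
theorem tf_mul {n : ℕ} (z y : Sm (n+1)) (N : NN) {M M' : MM (n+1) N.1}
    (h : ∀ g : MM (n+1) N.1, ((z : BB (n+1)) N) g = (M * g : MM (n+1) N.1))
    (h' : ∀ g : MM (n+1) N.1, ((y : BB (n+1)) N) g = (M' * g : MM (n+1) N.1)) :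
    (N.1 : ℂ) * ev N.1 N.2 (tf n (z * y)) = (M * M').trace := by
  rw [tf_spec, Fn_tr' N [] ((z * y : Sm (n+1)) : BB (n+1)) (M := M * M') (fun g => by
    rw [Subalgebra.coe_mul, BB_mul, Module.End.mul_apply, h', h, mul_assoc]), mw_nil, mul_one]

theorem vl_eq_tf {n : ℕ} (z : Sm (n+1)) (i : Fin (ts n).length) :
    vl n z i = tf n (z * wS (n+1) ((ts n).get i)) := by
  apply uniq
  intro N
  obtain ⟨M, _, hM⟩ := rep z.2 N
  rw [vl_spec, tf_mul z _ N hM (fun g => by rw [wS_coe]; exact rep_bb _ N g), Fn_tr' N _ _ hM]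

theorem tf_dvd {n N₀ : ℕ} {z : Sm (n+1)} (h : ∀ i, (N₀ : ℤ[T;T⁻¹]) ∣ vl n z i) (y : Sm (n+1)) :
    (N₀ : ℤ[T;T⁻¹]) ∣ tf n (z * y) := by
  have hg : ∀ a, (N₀ : ℤ[T;T⁻¹]) ∣ ((T 1 : ℤ[T;T⁻¹]) ^ 2 - T (-1) ^ 2) * a → (N₀ : ℤ[T;T⁻¹]) ∣ a := by
    intro a ha
    apply P0_cancel
    have : P0 = (T 1 : ℤ[T;T⁻¹]) ^ 2 - T (-1) ^ 2 := by
      rw [P0, T_pow, T_pow]
      norm_num
    rwa [this]
  have h1 := span_tsR (isTLr_eS (n+1)) tt1 hg rfl n le_rfl ((tf n) ∘ₗ (LinearMap.mulLeft ℤ[T;T⁻¹] z))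
    (fun w hw => by
      obtain ⟨i, rfl⟩ := List.get_of_mem hw
      have := h i
      rw [vl_eq_tf] at this
      exact this) y (SS_top n y)
  exact h1

/-! ### cancellation -/

theorem dd_cancel {n : ℕ} {g : ℤ[T;T⁻¹]} (h : (n : ℤ[T;T⁻¹]) ∣ dd * g) : (n : ℤ[T;T⁻¹]) ∣ g := by
  refine laurent_dom (ι := Unit) n (fun _ => g) (fun _ _ => -dd) (fun _ _ => X ^ 4 + 1) 2 ?_ id 4 ?_ ?_ ?_
    ?_ ()
  · intro _ _
    have e2 : (T 2 : ℤ[T;T⁻¹]) = T 1 ^ 2 := by rw [T_pow]; norm_num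
    rw [map_add, Polynomial.toLaurent_X_pow, map_one, dd, e2]
    have e4 : (T ((4 : ℕ) : ℤ) : ℤ[T;T⁻¹]) = T 1 ^ 4 := by rw [T_pow]; norm_num
    rw [e4]
    linear_combination -(1 + T 1 * T (-1)) * tt1
  · intro _ _
    compute_degree
  · intro _
    simp [Polynomial.coeff_one]
  · intro i j hij
    exact absurd (Subsingleton.elim i j) hij
  · intro _
    have : (∑ _j : Unit, g * -dd) = -(dd * g) := by simp [mul_comm]
    rw [this]
    exact (dvd_neg).2 h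

theorem dd_pow_cancel {n : ℕ} {g : ℤ[T;T⁻¹]} : ∀ k : ℕ, (n : ℤ[T;T⁻¹]) ∣ dd ^ k * g → (n : ℤ[T;T⁻¹]) ∣ g
  | 0, h => by rwa [pow_zero, one_mul] at h
  | (k+1), h => by
    rw [pow_succ', mul_assoc] at h
    exact dd_pow_cancel k (dd_cancel h)

/-! ### the dominant entries -/

/-- the polynomials -/
noncomputable def QQ (m l : ℕ) : ℤ[X] := Polynomial.C ((-1) ^ (m + l)) * (X ^ (2 * m - 2 * l) * (X ^ 4 + 1) ^ l)

theorem QQ_eq {m l : ℕ} (h : l ≤ m) :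
    toLaurent (QQ m l) = (T ((2 * m : ℕ) : ℤ) : ℤ[T;T⁻¹]) * ((-1) ^ m * dd ^ l) := by
  have e1 : (T ((2 * m : ℕ) : ℤ) : ℤ[T;T⁻¹]) = T 1 ^ (2 * m) := by rw [T_pow]; norm_num
  have e2 : toLaurent (X ^ 4 + 1 : ℤ[X]) = (T 1 : ℤ[T;T⁻¹]) ^ 4 + 1 := by
    rw [map_add, map_pow, Polynomial.toLaurent_X, map_one]
  have e3 : toLaurent (Polynomial.C ((-1) ^ (m + l)) : ℤ[X]) = (-1 : ℤ[T;T⁻¹]) ^ (m + l) := by
    rw [map_pow, map_pow]
    simp
  have e4 : (T 1 : ℤ[T;T⁻¹]) ^ (2 * m) = T 1 ^ (2 * m - 2 * l) * T 1 ^ (2 * l) := by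
    rw [← pow_add]
    congr 1
    omega
  have e5 : (T 1 : ℤ[T;T⁻¹]) ^ (2 * l) * dd ^ l = (-1) ^ l * ((T 1 : ℤ[T;T⁻¹]) ^ 4 + 1) ^ l := by
    rw [pow_mul, ← mul_pow, ← mul_pow]
    congr 1
    rw [dd]
    linear_combination -(1 + T 1 * T (-1)) * tt1
  rw [QQ, map_mul, map_mul, e3, map_pow, map_pow, Polynomial.toLaurent_X, e2, e1, e4]
  have e6 : (-1 : ℤ[T;T⁻¹]) ^ l * (-1) ^ l = 1 := by
    rw [← mul_pow]
    simp
  rw [pow_add]
  linear_combination (-(-1) ^ m * (T 1 : ℤ[T;T⁻¹]) ^ (2 * m - 2 * l)) * e5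

theorem QQ_deg {m l : ℕ} (h : l ≤ m) : (QQ m l).natDegree ≤ 2 * m + 2 * l := by
  unfold QQ
  refine (Polynomial.natDegree_C_mul_le _ _).trans ?_
  refine Polynomial.natDegree_mul_le.trans ?_
  have h1 : ((X : ℤ[X]) ^ (2 * m - 2 * l)).natDegree ≤ 2 * m - 2 * l := Polynomial.natDegree_X_pow_le _
  have h2 : (((X : ℤ[X]) ^ 4 + 1) ^ l).natDegree ≤ l * 4 :=
    Polynomial.natDegree_pow_le_of_le l (by compute_degree)
  omega

theorem QQ_top (m : ℕ) : (QQ m m).coeff (4 * m) = 1 := by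
  unfold QQ
  have h1 : (((X : ℤ[X]) ^ 4 + 1) ^ m).coeff (4 * m) = 1 := by
    have hm : ((X : ℤ[X]) ^ 4 + 1).Monic := by monicity!
    have hd : (((X : ℤ[X]) ^ 4 + 1) ^ m).natDegree = 4 * m := by
      rw [hm.natDegree_pow]
      have : ((X : ℤ[X]) ^ 4 + 1).natDegree = 4 := by compute_degree!
      rw [this, mul_comm]
    have := (hm.pow m).coeff_natDegree
    rwa [hd] at this
  rw [Nat.sub_self, pow_zero, one_mul, Polynomial.coeff_C_mul, h1, mul_one, ← two_mul, pow_mul]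
  simp

theorem card_Pt (m : ℕ) : Fintype.card (Pt m) = 2 * m := by
  rw [Fintype.card_sum, Fintype.card_fin]
  ring

/-- the dominance -/
theorem coord_dvd {m N₀ : ℕ} {c : PP m → ℤ[T;T⁻¹]}
    (h : ∀ σ : PP m, (N₀ : ℤ[T;T⁻¹]) ∣ ∑ τ, c τ * dd ^ lp τ.1 σ.1) : ∀ τ, (N₀ : ℤ[T;T⁻¹]) ∣ c τ := by
  classical
  have hle : ∀ τ σ : PP m, lp τ.1 σ.1 ≤ m := by
    intro τ σ
    have := lp_le (σ := σ.1) τ.2.1
    rw [card_Pt] at this
    omega
  refine laurent_dom N₀ c (fun τ σ => (-1) ^ m * dd ^ lp τ.1 σ.1) (fun τ σ => QQ m (lp τ.1 σ.1))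
    ((2 * m : ℕ) : ℤ) (fun τ σ => QQ_eq (hle τ σ)) id (4 * m) (fun τ σ => ?_) (fun τ => ?_) (fun τ σ hne => ?_)
    (fun σ => ?_)
  · have := QQ_deg (hle τ σ)
    have := hle τ σ
    omega
  · have h1 := lp_self τ.2.1
    rw [card_Pt] at h1
    have h2 : lp τ.1 (id τ).1 = m := by
      show lp τ.1 τ.1 = m
      omega
    rw [h2]
    exact QQ_top m
  · apply Polynomial.coeff_eq_zero_of_natDegree_lt
    have h1 : lp τ.1 (id σ).1 < m := by
      show lp τ.1 σ.1 < m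
      rcases Nat.lt_or_eq_of_le (hle τ σ) with h | h
      · exact h
      · exact absurd (Subtype.ext (eq_of_lp τ.2.1 σ.2.1 (by rw [h, card_Pt]))) hne
    have := QQ_deg h1.le
    omega
  · have : ∑ τ, c τ * ((-1) ^ m * dd ^ lp τ.1 σ.1) = (-1) ^ m * ∑ τ, c τ * dd ^ lp τ.1 σ.1 := by
      rw [Finset.mul_sum]
      exact Finset.sum_congr rfl fun τ _ => by ring
    rw [this]
    exact Dvd.dvd.mul_left (h σ) _


/-! ### the coordinates -/

/-- the matching with an exponent -/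
noncomputable def kk {m : ℕ} (σ : PP m) : ℕ := σ.2.2.choose

theorem kk_mem {m : ℕ} (σ : PP m) : (dd ^ kk σ • bM σ.1 : BB m) ∈ Sm m := σ.2.2.choose_spec

theorem sum_apply' {m : ℕ} {ι : Type*} (s : Finset ι) (f : ι → BB m) (N : NN) :
    (∑ i ∈ s, f i) N = ∑ i ∈ s, (f i) N := by
  classical
  induction s using Finset.induction_on with
  | empty => rw [Finset.sum_empty, Finset.sum_empty]; rfl
  | insert a s ha ih => rw [Finset.sum_insert ha, Finset.sum_insert ha, BB_add, ih]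

/-- the matrix of a combination -/
theorem rep_sum {m : ℕ} (c : PP m → ℤ[T;T⁻¹]) (N : NN) (g : MM m N.1) :
    ((∑ τ, c τ • bM τ.1 : BB m) N) g = ((∑ τ, ev N.1 N.2 (c τ) • mM τ.1 N.1) * g : MM m N.1) := by
  rw [sum_apply', LinearMap.sum_apply, Finset.sum_mul]
  refine Finset.sum_congr rfl fun τ _ => ?_
  rw [BB_smul, smul_mul_assoc]
  rfl

/-- the pairing with the transposed matching -/
theorem pairing {n : ℕ} (z : Sm (n+1)) (c : PP (n+1) → ℤ[T;T⁻¹])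
    (hz : (z : BB (n+1)) = ∑ τ, c τ • bM τ.1) (σ : PP (n+1)) : ∃ y : Sm (n+1),
    dd * tf n (z * y) = dd ^ kk σ * ∑ τ, c τ * dd ^ lp τ.1 σ.1 := by
  obtain ⟨y, hy, h1⟩ := transp (kk_mem σ)
  refine ⟨⟨y, hy⟩, ?_⟩
  rw [← sub_eq_zero]
  apply eq_zero_of_ev
  intro N hN
  obtain ⟨M, h2, h3⟩ := h1 ⟨N, hN⟩
  have h4 : M = ((N : ℂ) ^ kk σ) • mM σ.1 N := by
    have a1 := h2 1
    rw [mul_one] at a1
    rw [← a1, BB_smul, map_pow, ev_dd]
    show ((N : ℂ) ^ kk σ) • ((bM σ.1 : BB (n+1)) ⟨N, hN⟩) (1 : MM (n+1) N) = _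
    have a2 : ((bM σ.1 : BB (n+1)) ⟨N, hN⟩) (1 : MM (n+1) N) = (mM σ.1 N * 1 : MM (n+1) N) := rfl
    rw [a2, mul_one]
    rfl
  have h5 := tf_mul z ⟨y, hy⟩ ⟨N, hN⟩ (M := ∑ τ, ev N hN (c τ) • mM τ.1 N) (M' := M.transpose)
    (fun g => by rw [hz]; exact rep_sum c ⟨N, hN⟩ g) h3
  rw [h4, Matrix.transpose_smul, mul_smul_comm, Matrix.trace_smul, Finset.sum_mul, Matrix.trace_sum] at h5
  have h6 : ∀ τ : PP (n+1), (ev N hN (c τ) • mM τ.1 N * (mM σ.1 N).transpose).trace =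
      ev N hN (c τ) * (N : ℂ) ^ lp τ.1 σ.1 := by
    intro τ
    rw [smul_mul_assoc, Matrix.trace_smul, trace_mM, smul_eq_mul]
  rw [Finset.sum_congr rfl (fun τ _ => h6 τ), smul_eq_mul] at h5
  have hd : ev N hN dd = (N : ℂ) := ev_dd ⟨N, hN⟩
  generalize tf n (z * ⟨y, hy⟩) = G at h5
  rw [map_sub, map_mul, map_mul, map_pow, map_sum, hd, sub_eq_zero]
  simp only at h5
  rw [h5]
  congr 1
  refine Finset.sum_congr rfl fun τ _ => ?_
  rw [map_mul, map_pow, hd]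

/-- an element whose tests are divisible is divisible, in coordinates -/
theorem dvd_coords {n N₀ : ℕ} {z : Sm (n+1)} (h : ∀ i, (N₀ : ℤ[T;T⁻¹]) ∣ vl n z i) :
    ∃ c : PP (n+1) → ℤ[T;T⁻¹], (z : BB (n+1)) = (N₀ : ℤ[T;T⁻¹]) • ∑ τ, c τ • bM τ.1 := by
  obtain ⟨c, hc⟩ := (Submodule.mem_span_range_iff_exists_fun _).1 (mem_span_PP z.2)
  have h1 := coord_dvd (N₀ := N₀) (c := c) (fun σ => by
    obtain ⟨y, hy⟩ := pairing z c hc.symm σ
    apply dd_pow_cancel (kk σ)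
    rw [← hy]
    exact Dvd.dvd.mul_left (tf_dvd h y) _)
  choose c' hc' using h1
  refine ⟨c', ?_⟩
  rw [← hc, Finset.smul_sum]
  refine Finset.sum_congr rfl fun τ _ => ?_
  rw [hc' τ, smul_smul]

/-- a power of the loop value brings everything into the algebra -/
theorem exists_pow {m : ℕ} (c : PP m → ℤ[T;T⁻¹]) : ∃ K : ℕ, (dd ^ K • ∑ τ, c τ • bM τ.1 : BB m) ∈ Sm m := by
  classical
  refine ⟨univ.sup (kk : PP m → ℕ), ?_⟩
  rw [Finset.smul_sum]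
  refine Subalgebra.sum_mem _ fun τ _ => ?_
  have h1 : kk τ ≤ univ.sup (kk : PP m → ℕ) := Finset.le_sup (f := kk) (Finset.mem_univ τ)
  have h2 : (dd ^ (univ.sup (kk : PP m → ℕ)) • c τ • bM τ.1 : BB m) =
      (dd ^ (univ.sup (kk : PP m → ℕ) - kk τ) * c τ) • (dd ^ kk τ • bM τ.1) := by
    rw [smul_smul, smul_smul]
    congr 1
    have : dd ^ (univ.sup (kk : PP m → ℕ)) = dd ^ (univ.sup (kk : PP m → ℕ) - kk τ) * dd ^ kk τ := by
      rw [← pow_add]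
      congr 1
      omega
    rw [this]
    ring
  rw [h2]
  exact Subalgebra.smul_mem _ (kk_mem τ) _

/-! ### the row of a colouring with distinct neighbours -/

/-- the parity of a point -/
def par (n : ℕ) : Pt (n+1) → ℕ := Sum.elim (fun i => i.1 % 2) (fun i => i.1 % 2)

open Classical in
/-- the entry -/
noncomputable def bt {n : ℕ} (τ : Equiv.Perm (Pt (n+1))) : ℤ[T;T⁻¹] := if ∀ i, par n (τ i) = par n i then 1 else 0

theorem mM_ccol {n : ℕ} (τ : Equiv.Perm (Pt (n+1))) (N : NN) :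
    mM τ N.1 (ccol n N) (ccol n N) = ev N.1 N.2 (bt τ) := by
  classical
  have h1 : ∀ i, ((Sum.elim (ccol n N) (ccol n N) : Pt (n+1) → Fin N.1) i : ℕ) = par n i := by
    intro i
    rcases i with i | i <;> rfl
  have h2 : (∀ i, (Sum.elim (ccol n N) (ccol n N) : Pt (n+1) → Fin N.1) (τ i) =
      (Sum.elim (ccol n N) (ccol n N)) i) ↔ ∀ i, par n (τ i) = par n i := by
    refine forall_congr' fun i => ?_
    rw [Fin.ext_iff, h1, h1]
  show ind _ = _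
  rw [ind_congr h2]
  unfold ind bt
  split_ifs <;> simp

theorem row_eq {n N₀ : ℕ} {u : ℤ[T;T⁻¹]} {x : List (Bool × ℕ)} {c : PP (n+1) → ℤ[T;T⁻¹]}
    (h : u • bb (n+1) x - 1 = ((N₀ : ℤ[T;T⁻¹]) • ∑ τ, c τ • bM τ.1 : BB (n+1))) :
    u * T (expo x) - 1 = (N₀ : ℤ[T;T⁻¹]) * ∑ τ, c τ * bt τ.1 := by
  rw [← sub_eq_zero]
  apply eq_zero_of_ev
  intro N hN
  set M : NN := ⟨N, hN⟩ with hM
  have h1 := congrFun (congrFun (congrArg (fun z : BB (n+1) => (z M) (1 : MM (n+1) N)) h) (ccol n M)) (ccol n M)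
  have h2 : ((u • bb (n+1) x - 1 : BB (n+1)) M) (1 : MM (n+1) N) =
      (ev N hN u • mw (Ar N) (n+1) N x - 1 : MM (n+1) N) := by
    rw [BB_sub, LinearMap.sub_apply, BB_smul, LinearMap.smul_apply, rep_bb x M (1 : MM (n+1) N), mul_one]
    rfl
  have h3 : (((N₀ : ℤ[T;T⁻¹]) • ∑ τ, c τ • bM τ.1 : BB (n+1)) M) (1 : MM (n+1) N) =
      (ev N hN (N₀ : ℤ[T;T⁻¹]) • ∑ τ, ev N hN (c τ) • mM τ.1 N : MM (n+1) N) := by
    rw [BB_smul, LinearMap.smul_apply, rep_sum c M (1 : MM (n+1) N), mul_one]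
    rfl
  rw [h2, h3] at h1
  rw [Matrix.sub_apply, Matrix.smul_apply, mw_ccol n M x, ind_pos rfl, mul_one, Matrix.one_apply_eq,
    Matrix.smul_apply, Matrix.sum_apply] at h1
  have h4 : ∀ τ : PP (n+1), (ev N hN (c τ) • mM τ.1 N) (ccol n M) (ccol n M) =
      ev N hN (c τ) * ev N hN (bt τ.1) := by
    intro τ
    rw [Matrix.smul_apply, smul_eq_mul]
    congr 1
    exact mM_ccol τ.1 M
  rw [Finset.sum_congr rfl (fun τ _ => h4 τ)] at h1
  rw [map_sub, map_sub, map_mul, map_mul, map_one, ev_T, map_sum, sub_eq_zero]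
  simp only [map_mul]
  exact h1

/-! ### the integer moduli -/

theorem brk_of_coords {n N₀ : ℕ} {x : List (Bool × ℕ)} (hx : ∀ y ∈ x, y.2 < n)
    {c : PP (n+1) → ℤ[T;T⁻¹]}
    (h : bb (n+1) x - 1 = ((N₀ : ℤ[T;T⁻¹]) • ∑ τ, c τ • bM τ.1 : BB (n+1))) (O : Outer (n+1))
    {v : List (Bool × ℕ)} (hv : ∀ y ∈ v, y.2 < n) : (N₀ : ℤ[T;T⁻¹]) ∣ brk O (x ++ v) - brk O v := by
  obtain ⟨K, hK⟩ := exists_pow c
  apply dd_pow_cancel K
  refine transferB (Nat.succ_pos n) O x v (lt' hx) (lt' hv) (dd ^ K) N₀ _ hK ?_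
  have h1 : bb (n+1) x = 1 + ((N₀ : ℤ[T;T⁻¹]) • ∑ τ, c τ • bM τ.1 : BB (n+1)) := by
    rw [← h]
    abel
  rw [h1, smul_add, smul_smul, smul_smul, mul_comm]

/-- from the tests: the exponent sum and the bracket -/
theorem int_tests {n N₀ : ℕ} (hN : N₀ ≠ 1) {x : List (Bool × ℕ)} (hx : ∀ y ∈ x, y.2 < n)
    (h : ∀ t ∈ ts n, (N₀ : ℤ[T;T⁻¹]) ∣ ff (braidClosure (n+1)) (x ++ t) - 1) : expo x = 0 ∧
    ∀ (O : Outer (n+1)) (v : List (Bool × ℕ)), (∀ y ∈ v, y.2 < n) →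
      (N₀ : ℤ[T;T⁻¹]) ∣ brk O (x ++ v) - brk O v := by
  set z : Sm (n+1) := un (expo x) • ⟨bb (n+1) x, bb_mem x⟩ - 1 with hz
  have h1 : ∀ i, (N₀ : ℤ[T;T⁻¹]) ∣ vl n z i := by
    intro i
    set t := (ts n).get i with ht
    have htm : t ∈ ts n := List.get_mem _ i
    have htl := ts_lt n t htm
    have h2 : vl n z i = un (expo x) * brk (braidClosure (n+1)) (x ++ t) - brk (braidClosure (n+1)) t := by
      apply uniq
      intro N
      rw [vl_spec, map_sub, mul_sub, map_mul, mul_left_comm]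
      have h3 := brk_value (Nat.succ_pos n) (braidClosure (n+1)) t x (lt' htl) (lt' hx) N
      have h4 := brk_value (Nat.succ_pos n) (braidClosure (n+1)) t [] (lt' htl) (by simp) N
      rw [List.nil_append] at h4
      rw [h3, h4, ← Fn_smul]
      exact Fn_sub _ _ _ _ _
    have h5 : vl n z i = un (-expo t) * (ff (braidClosure (n+1)) (x ++ t) - 1) := by
      have h6 := (ts_good n t htm).ff htl
      rw [ff_closure' _ (lt' htl)] at h6
      rw [h2, ff_closure' _ (lt' (lt_app hx htl)), expo_append, un_add]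
      have h7 := un_inv (expo t)
      linear_combination (-(un (expo x) * brk (braidClosure (n+1)) (x ++ t)) +
        brk (braidClosure (n+1)) t) * h7 - un (-expo t) * h6
    rw [h5]
    exact Dvd.dvd.mul_left (h t htm) _
  obtain ⟨c, hc⟩ := dvd_coords h1
  have hc' : un (expo x) • bb (n+1) x - 1 = ((N₀ : ℤ[T;T⁻¹]) • ∑ τ, c τ • bM τ.1 : BB (n+1)) := hc
  have h8 := row_eq hc'
  have he : expo x = 0 := by
    by_contra he
    apply hN
    have h9 : un (expo x) * T (expo x) = sgn (expo x) * T (-2 * expo x) := by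
      rw [un, mul_assoc, ← T_add]
      congr 2
      ring
    rw [h9] at h8
    exact one_of_dvd (sgn_or _) (by omega) ⟨_, h8⟩
  refine ⟨he, fun O v hv => brk_of_coords hx (c := c) ?_ O hv⟩
  rw [he, un_zero, one_smul] at hc'
  exact hc'

/-- from the bracket: the exponent sum -/
theorem int_brk {n N₀ : ℕ} (hN : N₀ ≠ 1) {x : List (Bool × ℕ)} (hx : ∀ y ∈ x, y.2 < n)
    (h : ∀ t ∈ ts n, (N₀ : ℤ[T;T⁻¹]) ∣ brk (braidClosure (n+1)) (x ++ t) - brk (braidClosure (n+1)) t) :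
    expo x = 0 := by
  set z : Sm (n+1) := ⟨bb (n+1) x, bb_mem x⟩ - 1 with hz
  have h1 : ∀ i, (N₀ : ℤ[T;T⁻¹]) ∣ vl n z i := by
    intro i
    have h2 : vl n z i = brk (braidClosure (n+1)) (x ++ (ts n).get i) -
        brk (braidClosure (n+1)) ((ts n).get i) := by
      apply uniq
      intro N
      rw [vl_spec, map_sub, mul_sub]
      have h3 := brk_value (Nat.succ_pos n) (braidClosure (n+1)) ((ts n).get i) x (ts_lt' n i) (lt' hx) N
      have h4 := brk_value (Nat.succ_pos n) (braidClosure (n+1)) ((ts n).get i) [] (ts_lt' n i)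
        (by simp) N
      rw [List.nil_append] at h4
      rw [h3, h4]
      exact Fn_sub _ _ _ _ _
    rw [h2]
    exact h _ (List.get_mem _ i)
  obtain ⟨c, hc⟩ := dvd_coords h1
  have hc' : (1 : ℤ[T;T⁻¹]) • bb (n+1) x - 1 = ((N₀ : ℤ[T;T⁻¹]) • ∑ τ, c τ • bM τ.1 : BB (n+1)) := by
    rw [one_smul]
    exact hc
  have h8 := row_eq hc'
  by_contra he
  apply hN
  exact one_of_dvd (Or.inl rfl) he ⟨_, h8⟩

end Pool.Agent.J5.H37.AM
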