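import Pool.Agent.J5.H37.AM.Main
import Pool.Agent.J5.H37.UJ.Fin

/-!
# The closures of the tests are knots
-/

set_option autoImplicit false

namespace Pool.Agent.J5.H37.AM

open Finset LaurentPolynomial Pool.Agent.H891R2.Jones Pool.Agent.W639.RB Pool.Agent.Y463.SK
  Pool.Agent.J5.H37.UJ Pool.Agent.J5.H37.FD

theorem app_inv {α : Type*} (c : Equiv.Perm α) (y : α) : c (c⁻¹ y) = y := c.apply_symm_apply y

theorem permL_fix {r : ℕ} : ∀ (u : List (Bool × ℕ)), (∀ x ∈ u, x.2 < r) → ∀ i, r < i → permL u i = i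
  | [], _, i, _ => rfl
  | (x :: u), hu, i, hi => by
    have h2 : permL (x :: u) = Equiv.swap x.2 (x.2+1) * permL u := by simp [permL]
    have h3 := hu x List.mem_cons_self
    rw [h2, Equiv.Perm.mul_apply, permL_fix u (fun z hz => hu z (List.mem_cons_of_mem _ hz)) i hi]
    exact Equiv.swap_apply_of_ne_of_ne (by omega) (by omega)

theorem le_of_fix {r : ℕ} {c : Equiv.Perm ℕ} (hc : ∀ i, r < i → c i = i) {i : ℕ} (hi : i ≤ r) : c i ≤ r := by
  by_contra h
  have h1 := hc (c i) (by omega)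
  have h2 := c.injective h1
  omega

theorem fix_inv {r : ℕ} {c : Equiv.Perm ℕ} (hc : ∀ i, r < i → c i = i) : ∀ i, r < i → c⁻¹ i = i := by
  intro i hi
  rw [Equiv.Perm.inv_eq_iff_eq]
  exact (hc i hi).symm

/-- the permutation is one cycle on the first numbers -/
def Cy (n : ℕ) (c : Equiv.Perm ℕ) : Prop := (∀ i, n < i → c i = i) ∧ ∀ i j, i ≤ n → j ≤ n → c.SameCycle i j

theorem cy_step {n : ℕ} {c : Equiv.Perm ℕ} (h : Cy n c) : Cy (n+1) (c * Equiv.swap n (n+1)) := by
  obtain ⟨hf, hs⟩ := h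
  set π := c * Equiv.swap n (n+1) with hπ
  have e1 : π n = n + 1 := by
    rw [hπ, Equiv.Perm.mul_apply, Equiv.swap_apply_left, hf _ (Nat.lt_succ_self n)]
  have e2 : π (n+1) = c n := by
    rw [hπ, Equiv.Perm.mul_apply, Equiv.swap_apply_right]
  have e3 : ∀ i, i < n → π i = c i := by
    intro i hi
    rw [hπ, Equiv.Perm.mul_apply, Equiv.swap_apply_of_ne_of_ne (by omega) (by omega)]
  have s0 : ∀ i, π.SameCycle i (π i) := fun i => ⟨1, by rw [zpow_one]⟩
  have s1 : ∀ i, i ≤ n → π.SameCycle i (c i) := by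
    intro i hi
    rcases Nat.lt_or_eq_of_le hi with h | rfl
    · have := s0 i
      rwa [e3 i h] at this
    · have h1 := s0 i
      rw [e1] at h1
      have h2 := s0 (i+1)
      rw [e2] at h2
      exact h1.trans h2
  have s2 : ∀ (k : ℤ) (i : ℕ), i ≤ n → (c ^ k) i ≤ n ∧ π.SameCycle i ((c ^ k) i) := by
    intro k
    induction k using Int.induction_on with
    | zero => intro i hi; rw [zpow_zero]; exact ⟨hi, Equiv.Perm.SameCycle.refl _ _⟩
    | succ k ih =>
      intro i hi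
      obtain ⟨h1, h2⟩ := ih i hi
      have h3 : (c ^ ((k : ℤ) + 1)) i = c ((c ^ (k : ℤ)) i) := by
        rw [add_comm, zpow_add, zpow_one, Equiv.Perm.mul_apply]
      rw [h3]
      exact ⟨le_of_fix hf h1, h2.trans (s1 _ h1)⟩
    | pred k ih =>
      intro i hi
      obtain ⟨h1, h2⟩ := ih i hi
      have h3 : (c ^ (-(k : ℤ) - 1)) i = c⁻¹ ((c ^ (-(k : ℤ))) i) := by
        rw [sub_eq_add_neg, add_comm, zpow_add, zpow_neg_one, Equiv.Perm.mul_apply]
      rw [h3]
      have h4 := le_of_fix (fix_inv hf) h1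
      refine ⟨h4, h2.trans ?_⟩
      have h5 := s1 _ h4
      rw [app_inv] at h5
      exact h5.symm
  have s3 : ∀ i, i ≤ n → π.SameCycle n i := by
    intro i hi
    obtain ⟨k, hk⟩ := hs n i le_rfl hi
    have := (s2 k n le_rfl).2
    rwa [hk] at this
  have s4 : ∀ i, i ≤ n + 1 → π.SameCycle n i := by
    intro i hi
    rcases Nat.lt_or_eq_of_le hi with h | rfl
    · exact s3 i (by omega)
    · have := s0 n
      rwa [e1] at this
  refine ⟨fun i hi => ?_, fun i j hi hj => (s4 i hi).symm.trans (s4 j hj)⟩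
  rw [hπ, Equiv.Perm.mul_apply, Equiv.swap_apply_of_ne_of_ne (by omega) (by omega), hf i (by omega)]

theorem cy_conj {n : ℕ} {c g : Equiv.Perm ℕ} (h : Cy n c) (hg : ∀ i, n < i → g i = i) :
    Cy n (g⁻¹ * c * g) := by
  obtain ⟨hf, hs⟩ := h
  refine ⟨fun i hi => ?_, fun i j hi hj => ?_⟩
  · rw [Equiv.Perm.mul_apply, Equiv.Perm.mul_apply, hg i hi, hf i hi, fix_inv hg i hi]
  · have h1 : g⁻¹ * c * g = g⁻¹ * c * (g⁻¹)⁻¹ := by rw [inv_inv]
    rw [h1, Equiv.Perm.sameCycle_conj, inv_inv]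
    exact hs _ _ (le_of_fix hg hi) (le_of_fix hg hj)

theorem permL_invL (w : List (Bool × ℕ)) : permL (invL w) = (permL w)⁻¹ :=
  eq_inv_of_mul_eq_one_right (permL_inv w)

theorem ts_cy : ∀ (n : ℕ) (w : List (Bool × ℕ)), w ∈ ts n → Cy n (permL w)
  | 0, w, h => by
    rw [ts, List.mem_singleton] at h
    subst h
    refine ⟨fun i _ => rfl, fun i j hi hj => ?_⟩
    obtain rfl : i = 0 := by omega
    obtain rfl : j = 0 := by omega
    exact Equiv.Perm.SameCycle.refl _ _
  | (n+1), w, h => by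
    obtain ⟨k, hk, s, w', hw', rfl⟩ := mem_ts h
    have ih := ts_cy n w' hw'
    have h1 : permL (invL (ds (n-1) k) ++ (w' ++ ((s, n) :: ds (n-1) k))) =
        (permL (ds (n-1) k))⁻¹ * (permL w' * Equiv.swap n (n+1)) * permL (ds (n-1) k) := by
      have h2 : permL ((s, n) :: ds (n-1) k) = Equiv.swap n (n+1) * permL (ds (n-1) k) := by simp [permL]
      rw [permL_append, permL_append, permL_invL, h2, mul_assoc, mul_assoc]
    rw [h1]
    refine cy_conj (cy_step ih) fun i hi => ?_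
    exact permL_fix (r := n) _ (ds_lt hk) i (by omega)

/-- the permutations of the letters -/
theorem zpow_toN {m : ℕ} (w : List (Letter m)) (k : ℤ) (i : Fin m) :
    (permL (toN w) ^ k) (i : ℕ) = ((permW w ^ k) i : Fin m) := by
  have h1 : ∀ i : Fin m, permL (toN w) i = permW w i := (permL_toN w).1
  have h2 : ∀ i : Fin m, (permL (toN w))⁻¹ (i : ℕ) = ((permW w)⁻¹ i : Fin m) := by
    intro i
    rw [Equiv.Perm.inv_eq_iff_eq, h1, app_inv]
  induction k using Int.induction_on generalizing i with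
  | zero => rfl
  | succ k ih =>
    rw [zpow_add, zpow_one, Equiv.Perm.mul_apply, h1, ih, zpow_add, zpow_one, Equiv.Perm.mul_apply]
  | pred k ih =>
    rw [sub_eq_add_neg, zpow_add, zpow_neg_one, Equiv.Perm.mul_apply, h2, ih, zpow_add, zpow_neg_one,
      Equiv.Perm.mul_apply]

theorem knot_of_cy {n : ℕ} {w : List (Letter (n+1))} (h : Cy n (permL (toN w))) : IsKnotW w := by
  intro i j
  obtain ⟨k, hk⟩ := h.2 i j (by omega) (by omega)
  refine ⟨k, ?_⟩
  rw [zpow_toN] at hk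
  exact Fin.val_injective hk

end Pool.Agent.J5.H37.AM
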