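import Pool.Agent.J5.H37.AM.Match

/-!
# The number of loops of two matchings
-/

set_option autoImplicit false

namespace Pool.Agent.J5.H37.AM

open Finset LaurentPolynomial Pool.Agent.H891R2.Jones Pool.Agent.W639.RB Pool.Agent.Y463.SK
  Pool.Agent.J5.H37.UJ Pool.Agent.J5.H37.FD

section

variable {α : Type*} [Fintype α] {N : ℕ}

/-- the equivalence relation generated by two matchings -/
def rel (τ σ : Equiv.Perm α) : Setoid α := Relation.EqvGen.setoid (fun i j => j = τ i ∨ j = σ i)

open Classical in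
/-- the number of loops -/
noncomputable def lp (τ σ : Equiv.Perm α) : ℕ := Fintype.card (Quotient (rel τ σ))

theorem rel_l (τ σ : Equiv.Perm α) (i : α) : rel τ σ i (τ i) := Relation.EqvGen.rel _ _ (Or.inl rfl)
theorem rel_r (τ σ : Equiv.Perm α) (i : α) : rel τ σ i (σ i) := Relation.EqvGen.rel _ _ (Or.inr rfl)

theorem rel_le {τ σ : Equiv.Perm α} {s : Setoid α} (h1 : ∀ i, s i (τ i)) (h2 : ∀ i, s i (σ i)) :
    ∀ i j, rel τ σ i j → s i j := by
  intro i j h
  induction h with
  | rel x y h =>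
    rcases h with rfl | rfl
    · exact h1 x
    · exact h2 x
  | refl x => exact s.refl' x
  | symm x y _ ih => exact s.symm' ih
  | trans x y z _ _ ih1 ih2 => exact s.trans' ih1 ih2

theorem cst_iff (τ σ : Equiv.Perm α) (col : α → Fin N) :
    ((∀ i, col (τ i) = col i) ∧ ∀ i, col (σ i) = col i) ↔ rel τ σ ≤ Setoid.ker col := by
  constructor
  · rintro ⟨h1, h2⟩
    intro i j h
    exact rel_le (s := Setoid.ker col) (fun i => (h1 i).symm) (fun i => (h2 i).symm) i j h
  · intro h
    exact ⟨fun i => (h (rel_l τ σ i)).symm, fun i => (h (rel_r τ σ i)).symm⟩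

theorem sum_cst [DecidableEq α] (τ σ : Equiv.Perm α) :
    ∑ col : α → Fin N, cst τ col * cst σ col = (N : ℂ) ^ lp τ σ := by
  classical
  have h1 : ∀ col : α → Fin N, cst τ col * cst σ col = if rel τ σ ≤ Setoid.ker col then 1 else 0 := by
    intro col
    unfold cst
    rw [ind_mul, ind_congr (cst_iff τ σ col)]
    rfl
  rw [Finset.sum_congr rfl (fun col _ => h1 col), Finset.sum_boole]
  have h2 : (univ.filter fun col : α → Fin N => rel τ σ ≤ Setoid.ker col).card = N ^ lp τ σ := by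
    rw [← Fintype.card_subtype, Fintype.card_congr (Setoid.liftEquiv (rel τ σ)), Fintype.card_fun,
      Fintype.card_fin]
    rfl
  rw [h2, Nat.cast_pow]

open Classical in
/-- the classes -/
noncomputable def fb (τ σ : Equiv.Perm α) (q : Quotient (rel τ σ)) : Finset α :=
  univ.filter fun i => (Quotient.mk (rel τ σ) i) = q

open Classical in
theorem card_fb (τ σ : Equiv.Perm α) : ∑ q, (fb τ σ q).card = Fintype.card α := by
  have := Finset.card_eq_sum_card_fiberwise (f := fun i => Quotient.mk (rel τ σ) i) (s := univ) (t := univ)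
    (fun _ _ => Finset.mem_coe.2 (Finset.mem_univ _))
  rw [Finset.card_univ] at this
  rw [this]
  rfl

theorem mem_fb {τ σ : Equiv.Perm α} {i j : α} : j ∈ fb τ σ (Quotient.mk _ i) ↔ rel τ σ j i := by
  classical
  unfold fb
  rw [Finset.mem_filter]
  constructor
  · rintro ⟨_, h⟩
    exact Quotient.exact h
  · intro h
    exact ⟨Finset.mem_univ _, Quotient.sound h⟩

theorem two_le_fb {τ σ : Equiv.Perm α} (hτ : IsMt τ) (q : Quotient (rel τ σ)) : 2 ≤ (fb τ σ q).card := by
  obtain ⟨i, rfl⟩ := Quotient.exists_rep q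
  apply Finset.one_lt_card.2
  exact ⟨i, mem_fb.2 ((rel τ σ).refl' i), τ i, mem_fb.2 ((rel τ σ).symm' (rel_l τ σ i)), (hτ.2 i).symm⟩

theorem lp_le {τ σ : Equiv.Perm α} (hτ : IsMt τ) : 2 * lp τ σ ≤ Fintype.card α := by
  classical
  rw [← card_fb τ σ]
  have h1 : ∑ _q : Quotient (rel τ σ), 2 = 2 * lp τ σ := by
    rw [Finset.sum_const, Finset.card_univ, smul_eq_mul, mul_comm, lp]
  rw [← h1]
  exact Finset.sum_le_sum fun q _ => two_le_fb hτ q

theorem eq_of_lp {τ σ : Equiv.Perm α} (hτ : IsMt τ) (hσ : IsMt σ) (h : 2 * lp τ σ = Fintype.card α) :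
    τ = σ := by
  classical
  have h1 : ∑ _q : Quotient (rel τ σ), 2 = 2 * lp τ σ := by
    rw [Finset.sum_const, Finset.card_univ, smul_eq_mul, mul_comm, lp]
  have h2 := card_fb τ σ
  rw [← h, ← h1] at h2
  have h3 := (Finset.sum_eq_sum_iff_of_le (fun q _ => two_le_fb hτ q)).1 h2.symm
  ext i
  by_contra hne
  have h4 := h3 (Quotient.mk _ i) (Finset.mem_univ _)
  have h5 : 2 < (fb τ σ (Quotient.mk _ i)).card := by
    rw [Finset.two_lt_card]
    exact ⟨i, mem_fb.2 ((rel τ σ).refl' i), τ i, mem_fb.2 ((rel τ σ).symm' (rel_l τ σ i)), σ i,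
      mem_fb.2 ((rel τ σ).symm' (rel_r τ σ i)), (hτ.2 i).symm, (hσ.2 i).symm, hne⟩
  omega

theorem lp_self {τ : Equiv.Perm α} (hτ : IsMt τ) : 2 * lp τ τ = Fintype.card α := by
  classical
  have h1 : ∑ _q : Quotient (rel τ τ), 2 = 2 * lp τ τ := by
    rw [Finset.sum_const, Finset.card_univ, smul_eq_mul, mul_comm, lp]
  rw [← h1, ← card_fb τ τ]
  refine Finset.sum_congr rfl fun q _ => ?_
  apply le_antisymm (two_le_fb hτ q)
  obtain ⟨i, rfl⟩ := Quotient.exists_rep q
  have hs : ∀ a b, rel τ τ a b → (b = a ∨ b = τ a) := by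
    intro a b h
    have := rel_le (τ := τ) (σ := τ) (s := ⟨fun a b => b = a ∨ b = τ a, ⟨fun a => Or.inl rfl, by
      rintro a b (rfl | rfl)
      · exact Or.inl rfl
      · exact Or.inr (hτ.1 a).symm, by
      rintro a b c (rfl | rfl) (rfl | rfl)
      · exact Or.inl rfl
      · exact Or.inr rfl
      · exact Or.inr rfl
      · exact Or.inl (hτ.1 a)⟩⟩) (fun i => Or.inr rfl) (fun i => Or.inr rfl) a b h
    exact this
  have h2 : fb τ τ (Quotient.mk _ i) ⊆ {i, τ i} := by
    intro j hj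
    have := hs i j ((rel τ τ).symm' (mem_fb.1 hj))
    rw [Finset.mem_insert, Finset.mem_singleton]
    exact this
  exact (Finset.card_le_card h2).trans Finset.card_le_two

end

end Pool.Agent.J5.H37.AM
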