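import Pool.Agent.J5.H37.AM.Mat
import Mathlib.LinearAlgebra.Matrix.PosDef
import Mathlib.Analysis.Complex.Order

/-!
# Finitely many closures detect the elements of the Temperley-Lieb algebra
-/

set_option autoImplicit false

namespace Pool.Agent.J5.H37.AM

open Finset LaurentPolynomial Pool.Agent.H891R2.Jones Pool.Agent.W639.RB Pool.Agent.Y463.SK
  Pool.Agent.J5.H37.UJ Pool.Agent.J5.H37.FD

abbrev NN := {N : ℕ // 3 ≤ N}

theorem cost_expo' {m : ℕ} (w : List (Bool × ℕ)) (hw : ∀ x ∈ w, x.2 + 1 < m) :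
    costS w (pat (braidClosure m).up) = expo w := by
  have h1 := (draw_up w (braidClosure m) hw (fun _ => rfl)).2
  have h2 := (draw_writhe w (braidClosure m) hw).1
  rw [h1] at h2
  exact (add_left_cancel h2).symm

theorem owr_closure' (m : ℕ) : owr (braidClosure m) = 0 := rfl

theorem ff_closure' {m : ℕ} (w : List (Bool × ℕ)) (hw : ∀ x ∈ w, x.2 + 1 < m) :
    ff (braidClosure m) w = un (expo w) * brk (braidClosure m) w := by
  rw [ff_brk _ _ hw, owr_closure', zero_add, cost_expo' w hw]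

theorem brk_trace {m : ℕ} (hm : 0 < m) (x v : List (Bool × ℕ)) (hx : ∀ y ∈ x, y.2 + 1 < m)
    (hv : ∀ y ∈ v, y.2 + 1 < m) (N : NN) :
    (N.1 : ℂ) * ev N.1 N.2 (brk (braidClosure m) (x ++ v)) =
      (mw (Ar N.1) m N.1 x * mw (Ar N.1) m N.1 v).trace := by
  rw [brk_value hm (braidClosure m) v x hv hx N, Fn_trace]

theorem mw_append (A : ℂ) (m N : ℕ) (x y : List (Bool × ℕ)) :
    mw A m N (x ++ y) = mw A m N x * mw A m N y := wd_append _ _ _ _ _

theorem mw_nil (A : ℂ) (m N : ℕ) : mw A m N [] = 1 := wd_nil _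

/-- the value of the normalised polynomial -/
theorem ff_trace {m : ℕ} (hm : 0 < m) (w : List (Bool × ℕ)) (hw : ∀ x ∈ w, x.2 + 1 < m) (N : NN) :
    (N.1 : ℂ) * ev N.1 N.2 (ff (braidClosure m) w) =
      ev N.1 N.2 (un (expo w)) * (mw (Ar N.1) m N.1 w).trace := by
  have h1 := brk_trace hm w [] hw (by simp) N
  rw [List.append_nil, mw_nil, mul_one] at h1
  rw [ff_closure' w hw, map_mul, ← h1]
  ring

theorem N_ne (N : NN) : (N.1 : ℂ) ≠ 0 := by
  rw [Nat.cast_ne_zero]
  have := N.2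
  omega

theorem ev_un_ne (N : NN) (c : ℤ) : ev N.1 N.2 (un c) ≠ 0 := by
  intro h
  have h1 := congrArg (ev N.1 N.2) (un_inv c)
  rw [map_mul, h, zero_mul, map_one] at h1
  exact zero_ne_one h1

/-! ### the tests are good -/

/-- the normalised trace is the one of the unknot -/
def Gd (n : ℕ) (w : List (Bool × ℕ)) : Prop :=
  ∀ N : NN, ev N.1 N.2 (un (expo w)) * (mw (Ar N.1) (n+1) N.1 w).trace = (N.1 : ℂ)

theorem Gd.ff {n : ℕ} {w : List (Bool × ℕ)} (h : Gd n w) (hw : ∀ x ∈ w, x.2 < n) :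
    ff (braidClosure (n+1)) w = 1 := by
  apply eq_one_of_ev
  intro N hN
  have h1 := ff_trace (Nat.succ_pos n) w (fun x hx => by have := hw x hx; omega) ⟨N, hN⟩
  rw [h ⟨N, hN⟩] at h1
  exact mul_left_cancel₀ (N_ne ⟨N, hN⟩) (by rw [h1, mul_one])

theorem expo_inv (w : List (Bool × ℕ)) : expo (invL w) = - expo w := by
  induction w with
  | nil => rfl
  | cons x w ih =>
    have h1 : invL (x :: w) = invL w ++ [(!x.1, x.2)] := by simp [invL]
    have h2 : expo (x :: w) = (if x.1 then 1 else -1) + expo w := by simp [expo]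
    have h3 : expo [(!x.1, x.2)] = -(if x.1 then 1 else -1) := by
      cases x.1 <;> simp [expo]
    rw [h1, expo_append, ih, h2, h3]
    ring

theorem mw_inv {m : ℕ} (N : NN) (w : List (Bool × ℕ)) (hw : ∀ x ∈ w, x.2 + 1 < m) :
    mw (Ar N.1) m N.1 w * mw (Ar N.1) m N.1 (invL w) = 1 := by
  have := wd_inv (isTLr_me m N.1) (Ar_ne N.1 N.2) (Ar_d N.1 N.2) w hw
  exact mul_eq_one_comm.1 this

theorem un_one : un 1 = -T (-3) := by
  simp [un, sgn]

theorem un_neg_one : un (-1) = -T 3 := by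
  simp [un, sgn]

theorem ts_good : ∀ (n : ℕ) (w : List (Bool × ℕ)), w ∈ ts n → Gd n w
  | 0, w, h => by
    rw [ts, List.mem_singleton] at h
    subst h
    intro N
    have h1 : expo [] = 0 := rfl
    rw [h1, un_zero, map_one, one_mul, mw_nil, Matrix.trace_one, Fintype.card_fun, Fintype.card_fin,
      Fintype.card_fin]
    norm_num
  | (n+1), w, h => by
    obtain ⟨k, hk, s, w', hw', rfl⟩ := mem_ts h
    intro N
    have ih := ts_good n w' hw' N
    have hlt := ts_lt n w' hw'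
    set β := ds (n-1) k with hβ
    have hA := Ar_ne N.1 N.2
    have hd := Ar_d N.1 N.2
    have h1 : expo (invL β ++ (w' ++ ((s, n) :: β))) = expo w' + (if s then 1 else -1) := by
      have h2 : expo ((s, n) :: β) = (if s then 1 else -1) + expo β := by simp [expo]
      rw [expo_append, expo_append, expo_inv, h2]
      ring
    have hβlt : ∀ x ∈ β, x.2 + 1 < n + 1 + 1 := by
      intro x hx
      have := ds_lt hk x hx
      omega
    have h3 : (mw (Ar N.1) (n+1+1) N.1 (invL β ++ (w' ++ ((s, n) :: β)))).trace =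
        (mw (Ar N.1) (n+2) N.1 w' * ltr (Ar N.1) (Ar N.1)⁻¹ (me (n+2) N.1) (s, n)).trace := by
      have h4 : mw (Ar N.1) (n+2) N.1 ((s, n) :: β) =
          ltr (Ar N.1) (Ar N.1)⁻¹ (me (n+2) N.1) (s, n) * mw (Ar N.1) (n+2) N.1 β := wd_cons _ _ _
      rw [mw_append, mw_append, h4, Matrix.trace_mul_comm, mul_assoc, mul_assoc, mw_inv N β hβlt, mul_one]
    have h5 : (mw (Ar N.1) (n+2) N.1 w' * ltr (Ar N.1) (Ar N.1)⁻¹ (me (n+2) N.1) (s, n)).trace =
        (if s then -(Ar N.1) ^ 3 else -((Ar N.1)⁻¹) ^ 3) * (mw (Ar N.1) (n+1) N.1 w').trace := by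
      have h6 := trace_add (Ar N.1) (N := N.1) w' hlt
      have h7 := trace_markov (Ar N.1) (N := N.1) w' hlt
      have hii : Ar N.1 * (Ar N.1)⁻¹ = 1 := mul_inv_cancel₀ hA
      unfold ltr
      cases s
      · simp only [Bool.false_eq_true, if_false]
        rw [mul_add, Matrix.trace_add, mul_smul_comm, mul_smul_comm, Matrix.trace_smul,
          Matrix.trace_smul, mul_one, h6, h7, smul_eq_mul, smul_eq_mul, hd]
        linear_combination (-(Ar N.1) * (mw (Ar N.1) (n+1) N.1 w').trace) * hii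
      · simp only [if_true]
        rw [mul_add, Matrix.trace_add, mul_smul_comm, mul_smul_comm, Matrix.trace_smul,
          Matrix.trace_smul, mul_one, h6, h7, smul_eq_mul, smul_eq_mul, hd]
        linear_combination (-(Ar N.1)⁻¹ * (mw (Ar N.1) (n+1) N.1 w').trace) * hii
    rw [h1, h3, h5, un_add, map_mul]
    have hii : Ar N.1 * (Ar N.1)⁻¹ = 1 := mul_inv_cancel₀ hA
    have hii3 : Ar N.1 ^ 3 * (Ar N.1)⁻¹ ^ 3 = 1 := by
      rw [← mul_pow, hii, one_pow]
    cases s
    · simp only [Bool.false_eq_true, if_false]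
      have e1 : ev N.1 N.2 (un (-1)) = -(Ar N.1) ^ 3 := by
        rw [un_neg_one, map_neg, ev_T]
        norm_cast
      rw [e1]
      linear_combination ih + ev N.1 N.2 (un (expo w')) * (mw (Ar N.1) (n+1) N.1 w').trace * hii3
    · simp only [if_true]
      have e1 : ev N.1 N.2 (un 1) = -(Ar N.1)⁻¹ ^ 3 := by
        rw [un_one, map_neg, ev_T, inv_pow, zpow_neg]
        norm_cast
      rw [e1]
      linear_combination ih + ev N.1 N.2 (un (expo w')) * (mw (Ar N.1) (n+1) N.1 w').trace * hii3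

/-! ### nondegeneracy -/

theorem me_zero (m N i : ℕ) (h : m ≤ i + 1) : me m N i = 0 := by
  unfold me
  rw [dif_neg (by omega)]

theorem star_ind (p : Prop) : star (ind p) = ind p := by
  unfold ind
  split_ifs <;> simp

theorem me_star (m N i : ℕ) : (me m N i).conjTranspose = me m N i := by
  unfold me
  split_ifs with h
  · funext x y
    rw [Matrix.conjTranspose_apply]
    unfold mE
    rw [star_mul', star_ind, star_ind, ind_mul, ind_mul]
    apply ind_congr
    constructor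
    · rintro ⟨h1, h2, h3⟩
      exact ⟨fun j a b => (h1 j a b).symm, h3.symm, h2.symm⟩
    · rintro ⟨h1, h2, h3⟩
      exact ⟨fun j a b => (h1 j a b).symm, h3.symm, h2.symm⟩
  · exact Matrix.conjTranspose_zero

theorem adj_star {m N : ℕ} {y : MM m N} (h : y ∈ Algebra.adjoin ℂ (Set.range (me m N))) :
    y.conjTranspose ∈ Algebra.adjoin ℂ (Set.range (me m N)) := by
  induction h using Algebra.adjoin_induction with
  | mem b hb =>
    obtain ⟨i, rfl⟩ := hb
    rw [me_star]
    exact Algebra.subset_adjoin ⟨i, rfl⟩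
  | algebraMap r =>
    have h1 : (algebraMap ℂ (MM m N) r).conjTranspose = algebraMap ℂ (MM m N) (star r) := by
      rw [Algebra.algebraMap_eq_smul_one, Algebra.algebraMap_eq_smul_one, Matrix.conjTranspose_smul,
        Matrix.conjTranspose_one]
    rw [h1]
    exact Subalgebra.algebraMap_mem _ _
  | add b c _ _ hb hc =>
    rw [Matrix.conjTranspose_add]
    exact Subalgebra.add_mem _ hb hc
  | mul b c _ _ hb hc =>
    rw [Matrix.conjTranspose_mul]
    exact Subalgebra.mul_mem _ hc hb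

theorem mw_mem (A : ℂ) (m N : ℕ) (w : List (Bool × ℕ)) :
    mw A m N w ∈ Algebra.adjoin ℂ (Set.range (me m N)) := by
  unfold mw wd
  refine Subalgebra.list_prod_mem _ fun y hy => ?_
  obtain ⟨x, _, rfl⟩ := List.mem_map.1 hy
  have h1 : me m N x.2 ∈ Algebra.adjoin ℂ (Set.range (me m N)) := Algebra.subset_adjoin ⟨x.2, rfl⟩
  unfold ltr
  split_ifs
  · exact Subalgebra.add_mem _ (Subalgebra.smul_mem _ (Subalgebra.one_mem _) _) (Subalgebra.smul_mem _ h1 _)
  · exact Subalgebra.add_mem _ (Subalgebra.smul_mem _ (Subalgebra.one_mem _) _) (Subalgebra.smul_mem _ h1 _)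

open scoped ComplexOrder in
/-- an element which is orthogonal to the tests is zero -/
theorem nondeg' {n : ℕ} (N : NN) {M : MM (n+1) N.1} (hM : M ∈ Algebra.adjoin ℂ (Set.range (me (n+1) N.1)))
    (h : ∀ w ∈ ts n, (M * mw (Ar N.1) (n+1) N.1 w).trace = 0) : M = 0 := by
  have hA4 : Ar N.1 ^ 4 ≠ 1 := Ar4 N
  have h1 := span_ts (isTLr_me (n+1) N.1) (Ar_ne N.1 N.2) hA4 (Ar_d N.1 N.2) n le_rfl
    ((Matrix.traceLinearMap (Fin (n+1) → Fin N.1) ℂ ℂ) ∘ₗ (LinearMap.mulLeft ℂ M)) h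
  have h2 := adjoin_eq (isTLr_me (n+1) N.1) (Nat.succ_pos n) (me_zero (n+1) N.1)
  have h3 : M.conjTranspose ∈ SS ℂ (me (n+1) N.1) n := by
    have h4 := adj_star hM
    rw [← Subalgebra.mem_toSubmodule, h2] at h4
    exact h4
  have h5 : (M * M.conjTranspose).trace = 0 := h1 _ h3
  exact Matrix.trace_mul_conjTranspose_self_eq_zero_iff.1 h5

/-! ### the exponent -/

theorem Ar_gt (N : NN) : 1 < ‖Ar N.1‖ := Ar_norm N.1 N.2

/-- a colouring with distinct neighbours -/
def ccol (n : ℕ) (N : NN) : Fin (n+1) → Fin N.1 := fun i => ⟨i.1 % 2, by have := N.2; omega⟩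

theorem me_ccol (n i : ℕ) (N : NN) (y : Fin (n+1) → Fin N.1) : me (n+1) N.1 i (ccol n N) y = 0 := by
  unfold me
  split_ifs with h
  · unfold mE
    rw [ind_mul]
    apply ind_neg
    rintro ⟨_, _, h3⟩
    have := congrArg Fin.val h3
    simp only [ccol] at this
    omega
  · rfl

theorem mw_ccol (n : ℕ) (N : NN) : ∀ (w : List (Bool × ℕ)) (y : Fin (n+1) → Fin N.1),
    mw (Ar N.1) (n+1) N.1 w (ccol n N) y = Ar N.1 ^ expo w * ind (ccol n N = y)
  | [], y => by
    have h1 : expo [] = 0 := rfl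
    rw [h1, mw_nil, zpow_zero, one_mul, ← delta_eq]
  | (x :: w), y => by
    have ih := mw_ccol n N w
    have hA := Ar_ne N.1 N.2
    have h1 : mw (Ar N.1) (n+1) N.1 (x :: w) = ltr (Ar N.1) (Ar N.1)⁻¹ (me (n+1) N.1) x *
        mw (Ar N.1) (n+1) N.1 w := wd_cons x w _
    have h2 : ∀ z, ltr (Ar N.1) (Ar N.1)⁻¹ (me (n+1) N.1) x (ccol n N) z =
        Ar N.1 ^ (if x.1 then (1 : ℤ) else -1) * (1 : MM (n+1) N.1) (ccol n N) z := by
      intro z
      unfold ltr
      split_ifs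
      · rw [Matrix.add_apply, Matrix.smul_apply, Matrix.smul_apply, me_ccol, smul_zero, add_zero,
          smul_eq_mul, zpow_one]
      · rw [Matrix.add_apply, Matrix.smul_apply, Matrix.smul_apply, me_ccol, smul_zero, add_zero,
          smul_eq_mul, zpow_neg_one]
    have h3 : expo (x :: w) = (if x.1 then 1 else -1) + expo w := by simp [expo]
    rw [h1, Matrix.mul_apply]
    have h4 : ∀ z, ltr (Ar N.1) (Ar N.1)⁻¹ (me (n+1) N.1) x (ccol n N) z * mw (Ar N.1) (n+1) N.1 w z y =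
        Ar N.1 ^ (if x.1 then (1 : ℤ) else -1) * ((1 : MM (n+1) N.1) (ccol n N) z *
          mw (Ar N.1) (n+1) N.1 w z y) := by
      intro z
      rw [h2]
      ring
    rw [Finset.sum_congr rfl (fun z _ => h4 z), ← Finset.mul_sum, ← Matrix.mul_apply, one_mul, ih, h3,
      zpow_add₀ hA]
    ring

/-- if a multiple of the matrix by the unit is one, then the exponent is zero -/
theorem expo_zero_of {n : ℕ} (N : NN) {x : List (Bool × ℕ)}
    (h : ev N.1 N.2 (un (expo x)) • mw (Ar N.1) (n+1) N.1 x = 1) : expo x = 0 := by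
  have h1 := congrFun (congrFun h (ccol n N)) (ccol n N)
  rw [Matrix.smul_apply, mw_ccol, ind_pos rfl, mul_one, Matrix.one_apply_eq, smul_eq_mul, un, map_mul,
    ev_T] at h1
  have hA := Ar_ne N.1 N.2
  have h2 : ev N.1 N.2 (sgn (expo x)) * ev N.1 N.2 (sgn (expo x)) = 1 := by
    rw [ev_sgn]
    exact sgn_sq _
  have h3 : Ar N.1 ^ (-4 * expo x) = Ar N.1 ^ (0 : ℤ) := by
    have h4 : Ar N.1 ^ (-3 * expo x) * Ar N.1 ^ expo x = Ar N.1 ^ (-2 * expo x) := by
      rw [← zpow_add₀ hA]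
      congr 1
      ring
    have h5 : Ar N.1 ^ (-2 * expo x) * Ar N.1 ^ (-2 * expo x) = Ar N.1 ^ (-4 * expo x) := by
      rw [← zpow_add₀ hA]
      congr 1
      ring
    rw [mul_assoc, h4] at h1
    rw [zpow_zero, ← h5]
    have h6 : (ev N.1 N.2 (sgn (expo x)) * Ar N.1 ^ (-2 * expo x)) *
        (ev N.1 N.2 (sgn (expo x)) * Ar N.1 ^ (-2 * expo x)) = 1 := by
      rw [h1, one_mul]
    linear_combination h6 - Ar N.1 ^ (-2 * expo x) * Ar N.1 ^ (-2 * expo x) * h2
  have := Ar_zpow_inj N.1 N.2 h3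
  omega

theorem expo_zero_of' {n : ℕ} (N : NN) {x : List (Bool × ℕ)}
    (h : mw (Ar N.1) (n+1) N.1 x = 1) : expo x = 0 := by
  have h1 := congrFun (congrFun h (ccol n N)) (ccol n N)
  rw [mw_ccol, ind_pos rfl, mul_one, Matrix.one_apply_eq, ← zpow_zero (Ar N.1)] at h1
  exact Ar_zpow_inj N.1 N.2 h1

/-! ### the main equivalence -/

/-- the word is one in the algebra -/
def Tr (n : ℕ) (x : List (Bool × ℕ)) : Prop := ∀ N : NN, mw (Ar N.1) (n+1) N.1 x = 1

theorem Tr.expo {n : ℕ} {x : List (Bool × ℕ)} (h : Tr n x) : expo x = 0 := expo_zero_of' ⟨3, le_rfl⟩ (h ⟨3, le_rfl⟩)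

theorem lt' {n : ℕ} {x : List (Bool × ℕ)} (hx : ∀ y ∈ x, y.2 < n) : ∀ y ∈ x, y.2 + 1 < n + 1 :=
  fun y hy => by have := hx y hy; omega

theorem lt_app {n : ℕ} {x w : List (Bool × ℕ)} (hx : ∀ y ∈ x, y.2 < n) (hw : ∀ y ∈ w, y.2 < n) :
    ∀ y ∈ x ++ w, y.2 < n := by
  intro y hy
  rcases List.mem_append.1 hy with h | h
  · exact hx y h
  · exact hw y h

/-- from the tests -/
theorem tr_of_tests {n : ℕ} {x : List (Bool × ℕ)} (hx : ∀ y ∈ x, y.2 < n)
    (h : ∀ w ∈ ts n, ff (braidClosure (n+1)) (x ++ w) = 1) : Tr n x := by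
  have h1 : ∀ N : NN, ev N.1 N.2 (un (expo x)) • mw (Ar N.1) (n+1) N.1 x = 1 := by
    intro N
    rw [← sub_eq_zero]
    refine nondeg' N ?_ fun w hw => ?_
    · exact Subalgebra.sub_mem _ (Subalgebra.smul_mem _ (mw_mem _ _ _ _) _) (Subalgebra.one_mem _)
    · have hwlt := ts_lt n w hw
      have h2 := ts_good n w hw N
      have h3 := ff_trace (Nat.succ_pos n) (x ++ w) (lt' (lt_app hx hwlt)) N
      rw [h w hw, map_one, mul_one, expo_append, un_add, map_mul, mw_append] at h3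
      have h4 := ev_un_ne N (expo w)
      rw [sub_mul, one_mul, Matrix.trace_sub, smul_mul_assoc, Matrix.trace_smul, smul_eq_mul]
      have h5 : ev N.1 N.2 (un (expo w)) * (ev N.1 N.2 (un (expo x)) *
          (mw (Ar N.1) (n+1) N.1 x * mw (Ar N.1) (n+1) N.1 w).trace -
          (mw (Ar N.1) (n+1) N.1 w).trace) = 0 := by
        linear_combination -h3 - h2
      exact (mul_eq_zero.1 h5).resolve_left h4
  have h0 : expo x = 0 := expo_zero_of ⟨3, le_rfl⟩ (h1 ⟨3, le_rfl⟩)
  intro N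
  have := h1 N
  rwa [h0, un_zero, map_one, one_smul] at this

/-- from the bracket of the closures -/
theorem tr_of_brk {n : ℕ} {x : List (Bool × ℕ)} (hx : ∀ y ∈ x, y.2 < n)
    (h : ∀ w ∈ ts n, brk (braidClosure (n+1)) (x ++ w) = brk (braidClosure (n+1)) w) : Tr n x := by
  intro N
  rw [← sub_eq_zero]
  refine nondeg' N ?_ fun w hw => ?_
  · exact Subalgebra.sub_mem _ (mw_mem _ _ _ _) (Subalgebra.one_mem _)
  · have hwlt := ts_lt n w hw
    have h3 := brk_trace (Nat.succ_pos n) x w (lt' hx) (lt' hwlt) N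
    have h4 := brk_trace (Nat.succ_pos n) [] w (by simp) (lt' hwlt) N
    rw [List.nil_append, mw_nil, one_mul] at h4
    rw [sub_mul, one_mul, Matrix.trace_sub, ← h3, ← h4, h w hw, sub_self]

/-- the words which are one do not change the bracket -/
theorem brk_of_tr {n : ℕ} {x : List (Bool × ℕ)} (hx : ∀ y ∈ x, y.2 < n) (h : Tr n x) (O : Outer (n+1))
    {v : List (Bool × ℕ)} (hv : ∀ y ∈ v, y.2 < n) : brk O (x ++ v) = brk O v := by
  have h1 : bb (n+1) x = 1 := by
    funext N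
    rw [bb_apply]
    apply LinearMap.ext
    intro g
    have := rho_mul (Ar N.1) x (N := N.1) (m := n+1) g
    rw [h N, one_mul] at this
    exact this
  have h2 := transferB (Nat.succ_pos n) O x v (lt' hx) (lt' hv) 1 0 0 (Subalgebra.zero_mem _)
    (by rw [h1, smul_zero, add_zero])
  rw [zero_dvd_iff, one_mul, sub_eq_zero] at h2
  exact h2

/-- the normalised polynomial -/
theorem ff_of_tr {n : ℕ} {x : List (Bool × ℕ)} (hx : ∀ y ∈ x, y.2 < n) (h : Tr n x) (hp : permL x = 1)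
    (O : Outer (n+1)) (hc : costS x (pat O.up) = 0) {v : List (Bool × ℕ)} (hv : ∀ y ∈ v, y.2 < n) :
    ff O (x ++ v) = ff O v := by
  have hU : pat O.up ∘ ⇑(1 : Equiv.Perm ℕ) = pat O.up := rfl
  rw [ff_brk O _ (lt' (lt_app hx hv)), ff_brk O v (lt' hv), costS_append, hc, hp, hU, zero_add,
    brk_of_tr hx h O hv]

/-- parallel strands -/
theorem costS_par' {m : ℕ} (x : List (Bool × ℕ)) : ∀ (U : ℕ → ℤ), (∀ y ∈ x, y.2 + 1 < m) →
    (∀ i j, i < m → j < m → U i * U j = 1) → costS x U = expo x := by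
  induction x with
  | nil => intro U _ _; rfl
  | cons y x ih =>
    intro U hx hU
    have h2 := hx y List.mem_cons_self
    have h4 : expo (y :: x) = (if y.1 then 1 else -1) + expo x := by simp [expo]
    have h5 : costS (y :: x) U = (if y.1 then 1 else -1) * (U y.2 * U (y.2+1)) +
      costS x (U ∘ Equiv.swap y.2 (y.2+1)) := rfl
    have hs : ∀ i, i < m → Equiv.swap y.2 (y.2+1) i < m := by
      intro i hi
      rw [Equiv.swap_apply_def]
      split_ifs <;> omega
    rw [h4, h5, hU _ _ (by omega) h2, mul_one, ih (U ∘ Equiv.swap y.2 (y.2+1))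
      (fun z hz => hx z (List.mem_cons_of_mem _ hz)) (fun i j hi hj => hU _ _ (hs i hi) (hs j hj))]

theorem pat_par' {n : ℕ} {O : Outer (n+1)} (hO : ∀ i, O.up i = O.up 0) : ∀ i j, i < n+1 → j < n+1 →
    pat O.up i * pat O.up j = 1 := by
  intro i j hi hj
  unfold pat
  rw [dif_pos hi, dif_pos hj, hO, hO ⟨j, hj⟩]
  split_ifs <;> norm_num

end Pool.Agent.J5.H37.AM
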