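import Pool.Agent.J5.H37.AM.Span

/-!
# The Temperley-Lieb algebra as an algebra of matrices; the Markov trace
-/

set_option autoImplicit false

namespace Pool.Agent.J5.H37.AM

open Finset LaurentPolynomial Pool.Agent.H891R2.Jones Pool.Agent.W639.RB Pool.Agent.Y463.SK
  Pool.Agent.J5.H37.UJ Pool.Agent.J5.H37.FD

/-- the matrices on the colourings -/
abbrev MM (m N : ℕ) : Type := Matrix (Fin m → Fin N) (Fin m → Fin N) ℂ

/-- the matrix of the cup-cap operator -/
noncomputable def mE {m N : ℕ} (p q : Fin m) : MM m N :=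
  fun y x => ind (∀ j, j ≠ p → j ≠ q → y j = x j) * ind (x q = x p ∧ y p = y q)

/-- the matrix of the generator -/
noncomputable def me (m N i : ℕ) : MM m N :=
  if h : i + 1 < m then mE ⟨i, Nat.lt_of_succ_lt h⟩ ⟨i+1, h⟩ else 0

/-- the matrix of a word -/
noncomputable def mw (A : ℂ) (m N : ℕ) (w : List (Bool × ℕ)) : MM m N := wd A A⁻¹ (me m N) w

variable {m N : ℕ}

theorem EE_mul (p q : Fin m) (g : MM m N) (y : Fin m → Fin N) (z : Fin m → Fin N) :
    (EE p q : Module.End ℂ ((Fin m → Fin N) → ((Fin m → Fin N) → ℂ))) g y z = (mE p q * g : MM m N) y z := by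
  classical
  have h1 := local_sum p q 0 1 y (fun x => g x z)
  rw [zero_mul, zero_add, one_mul] at h1
  rw [Matrix.mul_apply, EE_apply]
  have h2 : (if y p = y q then ∑ c, (g : (Fin m → Fin N) → ((Fin m → Fin N) → ℂ)) (upd y p q c) else 0 :
      (Fin m → Fin N) → ℂ) z = (if y p = y q then ∑ c, g (upd y p q c) z else 0) := by
    split_ifs
    · rw [Finset.sum_apply]
    · rfl
  rw [h2, ← h1]
  refine Finset.sum_congr rfl fun x _ => ?_
  rw [zero_mul, zero_add, one_mul, mE]

theorem ee_mul (i : ℕ) (g : MM m N) :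
    (ee m N ((Fin m → Fin N) → ℂ) i) g = (me m N i * g : MM m N) := by
  unfold ee me
  split_ifs with h
  · funext y z
    exact EE_mul _ _ g y z
  · rw [zero_mul]
    rfl

theorem lt_mul (A : ℂ) (x : Bool × ℕ) (g : MM m N) : (lt A m N x) g = (ltr A A⁻¹ (me m N) x * g : MM m N) := by
  unfold lt ltr Pool.Agent.H891R2.Jones.sg
  split_ifs
  · rw [add_mul, smul_mul_assoc, smul_mul_assoc, one_mul, ← ee_mul]
    rfl
  · rw [add_mul, smul_mul_assoc, smul_mul_assoc, one_mul, ← ee_mul, inv_inv]
    rfl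

theorem rho_mul (A : ℂ) (w : List (Bool × ℕ)) : ∀ g : MM m N, rho A m N w g = (mw A m N w * g : MM m N) := by
  induction w with
  | nil =>
    intro g
    have h1 : mw A m N [] = 1 := wd_nil _
    rw [h1, one_mul]
    rfl
  | cons x w ih =>
    intro g
    have h1 : mw A m N (x :: w) = ltr A A⁻¹ (me m N) x * mw A m N w := wd_cons x w _
    have h2 : rho A m N (x :: w) = lt A m N x * rho A m N w := by simp [rho]
    rw [h1, h2, mul_assoc, Module.End.mul_apply, ih g, lt_mul]

theorem delta_eq : (fun x y => ind (x = y) : (Fin m → Fin N) → ((Fin m → Fin N) → ℂ)) = (1 : MM m N) := by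
  classical
  funext x y
  rw [Matrix.one_apply]
  unfold ind
  split_ifs <;> rfl

theorem isTLr_me (m N : ℕ) : IsTLr m (N : ℂ) (me m N) where
  sq i hi := by
    have h1 := (isTL_ee (W := (Fin m → Fin N) → ℂ) m N).sq i hi
    have h2 := congrArg (fun T => T (1 : MM m N)) h1
    simp only [Module.End.mul_apply, LinearMap.smul_apply] at h2
    rw [ee_mul, ee_mul, mul_one] at h2
    exact h2
  up i hi := by
    have h1 := (isTL_ee (W := (Fin m → Fin N) → ℂ) m N).up i hi
    have h2 := congrArg (fun T => T (1 : MM m N)) h1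
    simp only [Module.End.mul_apply] at h2
    rw [ee_mul, ee_mul, ee_mul, mul_one] at h2
    rw [mul_assoc]
    exact h2
  down i hi := by
    have h1 := (isTL_ee (W := (Fin m → Fin N) → ℂ) m N).down i hi
    have h2 := congrArg (fun T => T (1 : MM m N)) h1
    simp only [Module.End.mul_apply] at h2
    rw [ee_mul, ee_mul, ee_mul, mul_one] at h2
    rw [mul_assoc]
    exact h2
  far i j hj hij := by
    have h1 := (isTL_ee (W := (Fin m → Fin N) → ℂ) m N).far i j hj hij
    have h2 := congrArg (fun T => T (1 : MM m N)) h1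
    simp only [Module.End.mul_apply] at h2
    rw [ee_mul, ee_mul, ee_mul, ee_mul, mul_one, mul_one] at h2
    exact h2

/-- the closure -/
theorem Fn_trace (M : {N : ℕ // 3 ≤ N}) (x v : List (Bool × ℕ)) :
    Fn (braidClosure m) M v (bb m x) = (mw (Ar M.1) m M.1 x * mw (Ar M.1) m M.1 v).trace := by
  unfold Fn
  rw [bb_apply, delta_eq, rho_mul, rho_mul, mul_one]
  unfold Zg
  have h1 : ∀ col : (braidClosure m).P → Fin M.1,
      WW (Ar M.1) (braidClosure m).arcs (braidClosure m).crossings col = 1 := by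
    intro col
    simp [WW, braidClosure]
  simp only [h1, one_mul]
  rfl

/-! ### the Markov property -/

theorem sumsnoc {n N : ℕ} (F : (Fin (n+1) → Fin N) → ℂ) :
    ∑ x, F x = ∑ a : Fin N, ∑ y : Fin n → Fin N, F (Fin.snoc (α := fun _ => Fin N) y a) := by
  rw [← (Fin.snocEquiv (fun _ => Fin N)).sum_comp, Fintype.sum_prod_type]
  rfl

/-- the extended colouring -/
abbrev sn {n N : ℕ} (y : Fin n → Fin N) (a : Fin N) : Fin (n+1) → Fin N := Fin.snoc (α := fun _ => Fin N) y a

theorem sn_inj {n N : ℕ} (x y : Fin n → Fin N) (a b : Fin N) : sn x a = sn y b ↔ x = y ∧ a = b := by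
  constructor
  · intro h
    refine ⟨?_, ?_⟩
    · funext j
      have := congrFun h j.castSucc
      simpa [sn] using this
    · have := congrFun h (Fin.last n)
      simpa [sn] using this
  · rintro ⟨rfl, rfl⟩
    rfl

theorem me_sn {n N i : ℕ} (hi : i < n) (x y : Fin (n+1) → Fin N) (a b : Fin N) :
    me (n+2) N i (sn x a) (sn y b) = me (n+1) N i x y * ind (a = b) := by
  unfold me
  rw [dif_pos (by omega), dif_pos (by omega)]
  unfold mE
  have e1 : (⟨i, by omega⟩ : Fin (n+2)) = (⟨i, by omega⟩ : Fin (n+1)).castSucc := rfl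
  have e2 : (⟨i+1, by omega⟩ : Fin (n+2)) = (⟨i+1, by omega⟩ : Fin (n+1)).castSucc := rfl
  have e3 : ∀ (z : Fin (n+1) → Fin N) (c : Fin N) (j : Fin (n+1)), sn z c j.castSucc = z j := by
    intro z c j
    simp [sn]
  have e4 : ∀ (z : Fin (n+1) → Fin N) (c : Fin N), sn z c (Fin.last (n+1)) = c := by
    intro z c
    simp [sn]
  rw [ind_mul, ind_mul, ind_mul]
  apply ind_congr
  rw [e1, e2, e3, e3, e3, e3]
  constructor
  · rintro ⟨h1, h2⟩
    refine ⟨⟨fun j hj1 hj2 => ?_, h2⟩, ?_⟩
    · have := h1 j.castSucc (fun h => hj1 (Fin.castSucc_injective _ h))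
        (fun h => hj2 (Fin.castSucc_injective _ h))
      rwa [e3, e3] at this
    · have := h1 (Fin.last (n+1)) (by
        intro h; have := congrArg Fin.val h; simp at this; omega) (by
        intro h; have := congrArg Fin.val h; simp at this; omega)
      rwa [e4, e4] at this
  · rintro ⟨⟨h1, h2⟩, h3⟩
    refine ⟨fun j hj1 hj2 => ?_, h2⟩
    induction j using Fin.lastCases with
    | last => rw [e4, e4]; exact h3
    | cast j =>
      rw [e3, e3]
      exact h1 j (fun h => hj1 (by rw [h])) (fun h => hj2 (by rw [h]))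

theorem me_last {n N : ℕ} (x y : Fin (n+1) → Fin N) (a b : Fin N) :
    me (n+2) N n (sn x a) (sn y b) =
      ind (x (Fin.last n) = a ∧ y (Fin.last n) = b ∧ ∀ j : Fin n, x j.castSucc = y j.castSucc) := by
  unfold me
  rw [dif_pos (by omega)]
  unfold mE
  have e1 : (⟨n, by omega⟩ : Fin (n+2)) = (Fin.last n).castSucc := rfl
  have e2 : (⟨n+1, by omega⟩ : Fin (n+2)) = Fin.last (n+1) := rfl
  have e3 : ∀ (z : Fin (n+1) → Fin N) (c : Fin N) (j : Fin (n+1)), sn z c j.castSucc = z j := by
    intro z c j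
    simp [sn]
  have e4 : ∀ (z : Fin (n+1) → Fin N) (c : Fin N), sn z c (Fin.last (n+1)) = c := by
    intro z c
    simp [sn]
  rw [ind_mul]
  apply ind_congr
  rw [e1, e2, e3, e3, e4, e4]
  constructor
  · rintro ⟨h1, h2, h3⟩
    refine ⟨h3, h2.symm, fun j => ?_⟩
    have := h1 j.castSucc.castSucc (by
      intro h; have := congrArg Fin.val h; simp at this; omega) (by
      intro h; have := congrArg Fin.val h; simp at this; omega)
    rwa [e3, e3] at this
  · rintro ⟨h1, h2, h3⟩
    refine ⟨fun j hj1 hj2 => ?_, h2.symm, h1⟩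
    induction j using Fin.lastCases with
    | last => exact absurd rfl hj2
    | cast j =>
      rw [e3, e3]
      induction j using Fin.lastCases with
      | last => exact absurd rfl hj1
      | cast j => exact h3 j

theorem ltr_sn (A : ℂ) {n N : ℕ} {x : Bool × ℕ} (hx : x.2 < n) (u v : Fin (n+1) → Fin N) (a b : Fin N) :
    ltr A A⁻¹ (me (n+2) N) x (sn u a) (sn v b) = ltr A A⁻¹ (me (n+1) N) x u v * ind (a = b) := by
  classical
  have h1 : (1 : MM (n+2) N) (sn u a) (sn v b) = (1 : MM (n+1) N) u v * ind (a = b) := by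
    rw [← delta_eq, ← delta_eq]
    show ind _ = ind _ * ind _
    rw [ind_mul]
    exact ind_congr (sn_inj u v a b)
  unfold ltr
  split_ifs
  · rw [Matrix.add_apply, Matrix.add_apply, Matrix.smul_apply, Matrix.smul_apply, Matrix.smul_apply,
      Matrix.smul_apply, me_sn hx, h1]
    simp only [smul_eq_mul]
    ring
  · rw [Matrix.add_apply, Matrix.add_apply, Matrix.smul_apply, Matrix.smul_apply, Matrix.smul_apply,
      Matrix.smul_apply, me_sn hx, h1]
    simp only [smul_eq_mul]
    ring

theorem sum_ind {N : ℕ} (a : Fin N) (F : Fin N → ℂ) : ∑ c, ind (a = c) * F c = F a := by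
  classical
  have : ∀ c, ind (a = c) * F c = if a = c then F c else 0 := by
    intro c
    unfold ind
    split_ifs <;> simp
  rw [Finset.sum_congr rfl (fun c _ => this c), Finset.sum_ite_eq Finset.univ a,
    if_pos (Finset.mem_univ _)]

theorem mw_sn (A : ℂ) {n N : ℕ} : ∀ (w : List (Bool × ℕ)), (∀ x ∈ w, x.2 < n) →
    ∀ (u v : Fin (n+1) → Fin N) (a b : Fin N),
    mw A (n+2) N w (sn u a) (sn v b) = mw A (n+1) N w u v * ind (a = b)
  | [], _, u, v, a, b => by
    have h1 : mw A (n+2) N [] = 1 := wd_nil _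
    have h2 : mw A (n+1) N [] = 1 := wd_nil _
    rw [h1, h2, ← delta_eq, ← delta_eq]
    show ind _ = ind _ * ind _
    rw [ind_mul]
    exact ind_congr (sn_inj u v a b)
  | (x :: w), hw, u, v, a, b => by
    have ih := mw_sn A w (fun z hz => hw z (List.mem_cons_of_mem _ hz)) (N := N)
    have h1 : mw A (n+2) N (x :: w) = ltr A A⁻¹ (me (n+2) N) x * mw A (n+2) N w := wd_cons x w _
    have h2 : mw A (n+1) N (x :: w) = ltr A A⁻¹ (me (n+1) N) x * mw A (n+1) N w := wd_cons x w _
    rw [h1, h2, Matrix.mul_apply, Matrix.mul_apply, sumsnoc]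
    have h3 : ∀ (c : Fin N) (z : Fin (n+1) → Fin N),
        ltr A A⁻¹ (me (n+2) N) x (sn u a) (sn z c) * mw A (n+2) N w (sn z c) (sn v b) =
        ind (a = c) * ((ltr A A⁻¹ (me (n+1) N) x u z * mw A (n+1) N w z v) * ind (c = b)) := by
      intro c z
      rw [ltr_sn A (hw x List.mem_cons_self), ih]
      ring
    have h4 : ∀ c : Fin N, ∑ z : Fin (n+1) → Fin N,
        ltr A A⁻¹ (me (n+2) N) x (sn u a) (sn z c) * mw A (n+2) N w (sn z c) (sn v b) =
        ind (a = c) * ((∑ z, ltr A A⁻¹ (me (n+1) N) x u z * mw A (n+1) N w z v) * ind (c = b)) := by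
      intro c
      rw [Finset.sum_mul, Finset.mul_sum]
      exact Finset.sum_congr rfl fun z _ => h3 c z
    rw [Finset.sum_congr rfl (fun c _ => h4 c), sum_ind]

/-- adding a strand -/
theorem trace_add (A : ℂ) {n N : ℕ} (w : List (Bool × ℕ)) (hw : ∀ x ∈ w, x.2 < n) :
    (mw A (n+2) N w).trace = (N : ℂ) * (mw A (n+1) N w).trace := by
  unfold Matrix.trace
  rw [sumsnoc]
  have h1 : ∀ a : Fin N, ∑ y : Fin (n+1) → Fin N, (mw A (n+2) N w).diag (sn y a) =
      ∑ y, (mw A (n+1) N w).diag y := by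
    intro a
    refine Finset.sum_congr rfl fun y _ => ?_
    rw [Matrix.diag_apply, Matrix.diag_apply, mw_sn A w hw, ind_pos rfl, mul_one]
  rw [Finset.sum_congr rfl (fun a _ => h1 a), Finset.sum_const, Finset.card_univ, Fintype.card_fin,
    nsmul_eq_mul]

/-- the Markov property -/
theorem trace_markov (A : ℂ) {n N : ℕ} (w : List (Bool × ℕ)) (hw : ∀ x ∈ w, x.2 < n) :
    (mw A (n+2) N w * me (n+2) N n).trace = (mw A (n+1) N w).trace := by
  unfold Matrix.trace
  rw [sumsnoc, Finset.sum_comm]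
  refine Finset.sum_congr rfl fun x _ => ?_
  have h1 : ∀ a : Fin N, (mw A (n+2) N w * me (n+2) N n).diag (sn x a) =
      ind (x (Fin.last n) = a) * mw A (n+1) N w x x := by
    intro a
    rw [Matrix.diag_apply, Matrix.mul_apply, sumsnoc]
    have h2 : ∀ (b : Fin N) (y : Fin (n+1) → Fin N), mw A (n+2) N w (sn x a) (sn y b) *
        me (n+2) N n (sn y b) (sn x a) = ind (a = b) * (mw A (n+1) N w x y *
          ind (y (Fin.last n) = b ∧ x (Fin.last n) = a ∧ ∀ j : Fin n, y j.castSucc = x j.castSucc)) := by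
      intro b y
      rw [mw_sn A w hw, me_last]
      ring
    have h3 : ∀ b : Fin N, ∑ y : Fin (n+1) → Fin N, mw A (n+2) N w (sn x a) (sn y b) *
        me (n+2) N n (sn y b) (sn x a) = ind (a = b) * ∑ y : Fin (n+1) → Fin N, (mw A (n+1) N w x y *
          ind (y (Fin.last n) = b ∧ x (Fin.last n) = a ∧ ∀ j : Fin n, y j.castSucc = x j.castSucc)) := by
      intro b
      rw [Finset.mul_sum]
      exact Finset.sum_congr rfl fun y _ => h2 b y
    rw [Finset.sum_congr rfl (fun b _ => h3 b), sum_ind]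
    rw [Finset.sum_eq_single x]
    · have h4 : ind (x (Fin.last n) = a ∧ x (Fin.last n) = a ∧ ∀ j : Fin n, x j.castSucc = x j.castSucc) =
          ind (x (Fin.last n) = a) := ind_congr ⟨fun h => h.1, fun h => ⟨h, h, fun _ => rfl⟩⟩
      rw [h4, mul_comm]
    · intro y _ hyx
      rw [ind_neg, mul_zero]
      rintro ⟨h5, h6, h7⟩
      apply hyx
      funext j
      induction j using Fin.lastCases with
      | last => rw [h5, h6]
      | cast j => exact h7 j
    · intro h
      exact absurd (Finset.mem_univ _) h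
  rw [Finset.sum_congr rfl (fun a _ => h1 a), sum_ind (x (Fin.last n)) (fun _ => mw A (n+1) N w x x)]
  rfl

end Pool.Agent.J5.H37.AM
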