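import Pool.Agent.J5.H37.AM.Mod2

/-!
# Perfect matchings: products and traces
-/

set_option autoImplicit false

namespace Pool.Agent.J5.H37.AM

open Finset LaurentPolynomial Pool.Agent.H891R2.Jones Pool.Agent.W639.RB Pool.Agent.Y463.SK
  Pool.Agent.J5.H37.UJ Pool.Agent.J5.H37.FD

/-- perfect matchings -/
def IsMt {α : Type*} (τ : Equiv.Perm α) : Prop := (∀ i, τ (τ i) = i) ∧ ∀ i, τ i ≠ i

/-- the colouring is constant on the pairs -/
noncomputable def cst {α : Type*} {N : ℕ} (τ : Equiv.Perm α) (col : α → Fin N) : ℂ := ind (∀ i, col (τ i) = col i)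

section

variable {α : Type*} [DecidableEq α] {N : ℕ}

/-- change the colours at two points -/
def up2 (col : α → Fin N) (P Q : α) (c : Fin N) : α → Fin N := fun i => if i = P ∨ i = Q then c else col i

/-- the new matching -/
def stp (τ : Equiv.Perm α) (P Q : α) : Equiv.Perm α :=
  Equiv.swap Q (τ P) * τ * Equiv.swap Q (τ P)

theorem stp_mt {τ : Equiv.Perm α} (h : IsMt τ) (P Q : α) : IsMt (stp τ P Q) := by
  have hs : ∀ i, Equiv.swap Q (τ P) (Equiv.swap Q (τ P) i) = i := fun i => Equiv.swap_apply_self _ _ i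
  refine ⟨fun i => ?_, fun i hi => ?_⟩
  · simp only [stp, Equiv.Perm.mul_apply]
    rw [hs, h.1, hs]
  · simp only [stp, Equiv.Perm.mul_apply] at hi
    have := congrArg (Equiv.swap Q (τ P)) hi
    rw [hs] at this
    exact h.2 _ this

theorem sum_same {τ : Equiv.Perm α} (h : IsMt τ) {P Q : α} (hPQ : P ≠ Q) (hτ : τ P = Q)
    (col : α → Fin N) :
    (∑ c, cst τ (up2 col P Q c)) * ind (col P = col Q) = (N : ℂ) * cst τ col := by
  have hτ2 : τ Q = P := by rw [← hτ, h.1]
  have h1 : ∀ c, cst τ (up2 col P Q c) * ind (col P = col Q) = cst τ col := by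
    intro c
    unfold cst
    rw [ind_mul]
    apply ind_congr
    constructor
    · rintro ⟨h1, h2⟩ i
      by_cases hi : i = P
      · rw [hi, hτ, h2]
      by_cases hi' : i = Q
      · rw [hi', hτ2, h2]
      have h3 := h1 i
      have e1 : ¬ (i = P ∨ i = Q) := by rintro (h | h); exacts [hi h, hi' h]
      have e2 : ¬ (τ i = P ∨ τ i = Q) := by
        rintro (h4 | h4)
        · exact hi' (τ.injective (h4.trans hτ2.symm))
        · exact hi (τ.injective (h4.trans hτ.symm))
      unfold up2 at h3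
      rwa [if_neg e1, if_neg e2] at h3
    · intro h1
      refine ⟨fun i => ?_, ?_⟩
      · unfold up2
        by_cases hi : i = P
        · rw [if_pos (Or.inr (by rw [hi, hτ])), if_pos (Or.inl hi)]
        by_cases hi' : i = Q
        · rw [if_pos (Or.inl (by rw [hi', hτ2])), if_pos (Or.inr hi')]
        have e1 : ¬ (i = P ∨ i = Q) := by rintro (h | h); exacts [hi h, hi' h]
        have e2 : ¬ (τ i = P ∨ τ i = Q) := by
          rintro (h4 | h4)
          · exact hi' (τ.injective (h4.trans hτ2.symm))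
          · exact hi (τ.injective (h4.trans hτ.symm))
        rw [if_neg e1, if_neg e2, h1]
      · have := h1 P
        rw [hτ] at this
        exact this.symm
  rw [Finset.sum_mul, Finset.sum_congr rfl (fun c _ => h1 c), Finset.sum_const, Finset.card_univ,
    Fintype.card_fin, nsmul_eq_mul]

theorem sum_diff {τ : Equiv.Perm α} (h : IsMt τ) {P Q : α} (hPQ : P ≠ Q) (hτ : τ P ≠ Q)
    (col : α → Fin N) :
    (∑ c, cst τ (up2 col P Q c)) * ind (col P = col Q) = cst (stp τ P Q) col := by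
  -- the four points
  have hPR : P ≠ τ P := (h.2 P).symm
  have hQS : Q ≠ τ Q := (h.2 Q).symm
  have hPS : P ≠ τ Q := fun h1 => hτ (by rw [h1, h.1])
  have hRS : τ P ≠ τ Q := fun h1 => hPQ (τ.injective h1)
  have key1 : ∀ c, (∀ i, up2 col P Q c (τ i) = up2 col P Q c i) ↔
      (c = col (τ P) ∧ col (τ P) = col (τ Q) ∧
        ∀ i, i ≠ P → i ≠ Q → i ≠ τ P → i ≠ τ Q → col (τ i) = col i) := by
    intro c
    have v1 : ∀ i, i ≠ P → i ≠ Q → up2 col P Q c i = col i := fun i h1 h2 =>
      if_neg (by rintro (h3 | h3); exacts [h1 h3, h2 h3])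
    have v2 : up2 col P Q c P = c := if_pos (Or.inl rfl)
    have v3 : up2 col P Q c Q = c := if_pos (Or.inr rfl)
    have v4 : up2 col P Q c (τ P) = col (τ P) := v1 _ hPR.symm hτ
    have v5 : up2 col P Q c (τ Q) = col (τ Q) := v1 _ hPS.symm hQS.symm
    constructor
    · intro h1
      have a1 := h1 P
      have a2 := h1 Q
      rw [v2, v4] at a1
      rw [v3, v5] at a2
      refine ⟨a1.symm, a1.trans a2.symm, fun i i1 i2 i3 i4 => ?_⟩
      have a3 := h1 i
      rwa [v1 i i1 i2, v1 (τ i) (fun h2 => i3 (by rw [← h2, h.1])) (fun h2 => i4 (by rw [← h2, h.1]))] at a3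
    · rintro ⟨a1, a2, a3⟩ i
      by_cases i1 : i = P
      · rw [i1, v2, v4, a1]
      by_cases i2 : i = Q
      · rw [i2, v3, v5, a1, a2]
      by_cases i3 : i = τ P
      · rw [i3, h.1, v2, v4, a1]
      by_cases i4 : i = τ Q
      · rw [i4, h.1, v3, v5, a1, a2]
      rw [v1 i i1 i2, v1 (τ i) (fun h2 => i3 (by rw [← h2, h.1])) (fun h2 => i4 (by rw [← h2, h.1]))]
      exact a3 i i1 i2 i3 i4
  have key2 : (∀ i, col (stp τ P Q i) = col i) ↔ (col P = col Q ∧ col (τ P) = col (τ Q) ∧
      ∀ i, i ≠ P → i ≠ Q → i ≠ τ P → i ≠ τ Q → col (τ i) = col i) := by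
    have w1 : stp τ P Q P = Q := by
      simp only [stp, Equiv.Perm.mul_apply]
      rw [Equiv.swap_apply_of_ne_of_ne hPQ hPR, Equiv.swap_apply_right]
    have w2 : stp τ P Q Q = P := by
      simp only [stp, Equiv.Perm.mul_apply]
      rw [Equiv.swap_apply_left, h.1, Equiv.swap_apply_of_ne_of_ne hPQ hPR]
    have w3 : stp τ P Q (τ P) = τ Q := by
      simp only [stp, Equiv.Perm.mul_apply]
      rw [Equiv.swap_apply_right, Equiv.swap_apply_of_ne_of_ne hQS.symm hRS.symm]
    have w4 : stp τ P Q (τ Q) = τ P := by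
      simp only [stp, Equiv.Perm.mul_apply]
      rw [Equiv.swap_apply_of_ne_of_ne hQS.symm hRS.symm, h.1, Equiv.swap_apply_left]
    have w5 : ∀ i, i ≠ P → i ≠ Q → i ≠ τ P → i ≠ τ Q → stp τ P Q i = τ i := by
      intro i i1 i2 i3 i4
      simp only [stp, Equiv.Perm.mul_apply]
      rw [Equiv.swap_apply_of_ne_of_ne i2 i3, Equiv.swap_apply_of_ne_of_ne
        (fun h2 => i4 (by rw [← h2, h.1])) (fun h2 => i1 (τ.injective h2))]
    constructor
    · intro h1
      refine ⟨?_, ?_, fun i i1 i2 i3 i4 => ?_⟩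
      · have := h1 Q
        rwa [w2] at this
      · have := h1 (τ Q)
        rwa [w4] at this
      · have := h1 i
        rwa [w5 i i1 i2 i3 i4] at this
    · rintro ⟨a1, a2, a3⟩ i
      by_cases i1 : i = P
      · rw [i1, w1, a1]
      by_cases i2 : i = Q
      · rw [i2, w2, a1]
      by_cases i3 : i = τ P
      · rw [i3, w3, a2]
      by_cases i4 : i = τ Q
      · rw [i4, w4, a2]
      rw [w5 i i1 i2 i3 i4]
      exact a3 i i1 i2 i3 i4
  unfold cst
  simp only [ind_congr (key1 _)]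
  rw [ind_congr key2, Finset.sum_eq_single (col (τ P))]
  · rw [ind_mul]
    apply ind_congr
    constructor
    · rintro ⟨⟨_, a1, a2⟩, a3⟩
      exact ⟨a3, a1, a2⟩
    · rintro ⟨a1, a2, a3⟩
      exact ⟨⟨rfl, a2, a3⟩, a1⟩
  · intro c _ hc
    exact ind_neg (fun h1 => hc h1.1)
  · intro h1
    exact absurd (Finset.mem_univ _) h1

end

end Pool.Agent.J5.H37.AM
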