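import Pool.Agent.J5.H37.AM.Fin

/-!
# General moduli
-/

set_option autoImplicit false

namespace Pool.Agent.J5.H37.AM

open Finset LaurentPolynomial Pool.Agent.H891R2.Jones Pool.Agent.W639.RB Pool.Agent.Y463.SK
  Pool.Agent.J5.H37.UJ Pool.Agent.J5.H37.FD

/-! ### linear algebra -/

section

variable {R S ι : Type*} [CommRing R] [IsDomain R] [AddCommGroup S] [Module R S] [Fintype ι]

/-- the map into the vector space -/
noncomputable def jj (φ : S →ₗ[R] (ι → R)) (b : S) : ι → FractionRing R :=
  fun i => algebraMap R (FractionRing R) (φ b i)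

theorem jj_smul (φ : S →ₗ[R] (ι → R)) (r : R) (b : S) :
    jj φ (r • b) = algebraMap R (FractionRing R) r • jj φ b := by
  funext i
  simp [jj]

theorem jj_add (φ : S →ₗ[R] (ι → R)) (b b' : S) : jj φ (b + b') = jj φ b + jj φ b' := by
  funext i
  simp [jj]

theorem jj_zero (φ : S →ₗ[R] (ι → R)) : jj φ 0 = 0 := by
  funext i
  simp [jj]

theorem jj_sum {κ : Type*} (φ : S →ₗ[R] (ι → R)) (s : Finset κ) (f : κ → S) :
    jj φ (∑ i ∈ s, f i) = ∑ i ∈ s, jj φ (f i) := by
  classical
  induction s using Finset.induction_on with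
  | empty => simp [jj_zero]
  | insert a s ha ih => rw [Finset.sum_insert ha, Finset.sum_insert ha, jj_add, ih]

theorem jj_inj {φ : S →ₗ[R] (ι → R)} (hφ : Function.Injective φ) : Function.Injective (jj φ) := by
  intro b b' h
  apply hφ
  funext i
  exact IsFractionRing.injective R (FractionRing R) (congrFun h i)

theorem clear (φ : S →ₗ[R] (ι → R)) {y : ι → FractionRing R}
    (hy : y ∈ Submodule.span (FractionRing R) (Set.range (jj φ))) :
    ∃ r : R, r ≠ 0 ∧ ∃ s : S, algebraMap R (FractionRing R) r • y = jj φ s := by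
  induction hy using Submodule.span_induction with
  | mem y hy =>
    obtain ⟨s, rfl⟩ := hy
    exact ⟨1, one_ne_zero, s, by rw [map_one, one_smul]⟩
  | zero => exact ⟨1, one_ne_zero, 0, by rw [smul_zero, jj_zero]⟩
  | add y z _ _ hy hz =>
    obtain ⟨r, hr, s, hs⟩ := hy
    obtain ⟨r', hr', s', hs'⟩ := hz
    refine ⟨r * r', mul_ne_zero hr hr', r' • s + r • s', ?_⟩
    rw [jj_add, jj_smul, jj_smul, ← hs, ← hs', map_mul, smul_add, smul_smul, smul_smul,
      mul_comm (algebraMap R (FractionRing R) r')]
  | smul a y _ hy =>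
    obtain ⟨r, hr, s, hs⟩ := hy
    obtain ⟨p, q, hq, rfl⟩ := IsFractionRing.div_surjective (A := R) a
    have hq0 : q ≠ 0 := nonZeroDivisors.ne_zero hq
    have hq1 : algebraMap R (FractionRing R) q ≠ 0 := by
      intro h
      exact hq0 (IsFractionRing.injective R (FractionRing R) (by rw [h, map_zero]))
    refine ⟨q * r, mul_ne_zero hq0 hr, p • s, ?_⟩
    rw [jj_smul, ← hs, smul_smul, smul_smul, map_mul]
    congr 1
    field_simp

/-- an injective map to a free module has a left inverse up to a factor -/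
theorem left_inverse (φ : S →ₗ[R] (ι → R)) (hφ : Function.Injective φ) :
    ∃ κ : R, κ ≠ 0 ∧ ∃ u : ι → S, ∀ b, κ • b = ∑ i, φ b i • u i := by
  classical
  set W := Submodule.span (FractionRing R) (Set.range (jj φ)) with hW
  obtain ⟨p, hp⟩ := LinearMap.exists_leftInverse_of_injective W.subtype (Submodule.ker_subtype W)
  have h1 : ∀ i : ι, ∃ r : R, r ≠ 0 ∧ ∃ s : S,
      algebraMap R (FractionRing R) r • ((p (Pi.single i 1) : W) : ι → FractionRing R) = jj φ s :=
    fun i => clear φ (p (Pi.single i 1)).2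
  choose r hr s hs using h1
  refine ⟨∏ i, r i, Finset.prod_ne_zero_iff.2 fun i _ => hr i, fun i => (∏ k ∈ univ.erase i, r k) • s i,
    fun b => ?_⟩
  apply jj_inj hφ
  rw [jj_smul, jj_sum]
  have h2 : jj φ b = ∑ i, algebraMap R (FractionRing R) (φ b i) •
      ((p (Pi.single i 1) : W) : ι → FractionRing R) := by
    have h3 : jj φ b = ∑ i, algebraMap R (FractionRing R) (φ b i) •
        (Pi.single i 1 : ι → FractionRing R) := by
      funext j
      rw [Finset.sum_apply, Finset.sum_eq_single j]
      · simp [jj]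
      · intro k _ hk
        simp [Pi.single_apply, hk.symm]
      · simp
    have h4 : jj φ b ∈ W := Submodule.subset_span ⟨b, rfl⟩
    have h5 : ((p (jj φ b) : W) : ι → FractionRing R) = jj φ b := by
      have := congrArg (fun f => f ⟨jj φ b, h4⟩) hp
      simp only [LinearMap.comp_apply, Submodule.subtype_apply, LinearMap.id_apply] at this
      rw [this]
    conv_lhs => rw [← h5, h3]
    rw [map_sum]
    simp only [map_smul]
    rw [Submodule.coe_sum]
    rfl
  rw [h2, Finset.smul_sum]
  refine Finset.sum_congr rfl fun i _ => ?_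
  rw [jj_smul, jj_smul, ← hs i, ← Finset.mul_prod_erase univ r (Finset.mem_univ i), map_mul]
  simp only [smul_smul]
  congr 1
  ring

end

end Pool.Agent.J5.H37.AM
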