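import Pool.Agent.J5.H37.AM.Mod

/-!
# General moduli: the factor
-/

set_option autoImplicit false

namespace Pool.Agent.J5.H37.AM

open Finset LaurentPolynomial Pool.Agent.H891R2.Jones Pool.Agent.W639.RB Pool.Agent.Y463.SK
  Pool.Agent.J5.H37.UJ Pool.Agent.J5.H37.FD

/-- the algebra generated by the cup-cap operators -/
noncomputable abbrev Sm (m : ℕ) : Subalgebra ℤ[T;T⁻¹] (BB m) :=
  Algebra.adjoin ℤ[T;T⁻¹] (Set.range (EB m))

theorem rep {m : ℕ} {z : BB m} (hz : z ∈ Sm m) (N : NN) :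
    ∃ M ∈ Algebra.adjoin ℂ (Set.range (me m N.1)), ∀ g : MM m N.1, (z N) g = (M * g : MM m N.1) := by
  induction hz using Algebra.adjoin_induction with
  | mem b hb =>
    obtain ⟨i, rfl⟩ := hb
    exact ⟨me m N.1 i, Algebra.subset_adjoin ⟨i, rfl⟩, fun g => ee_mul i g⟩
  | algebraMap r =>
    refine ⟨algebraMap ℂ _ (ev N.1 N.2 r), Subalgebra.algebraMap_mem _ _, fun g => ?_⟩
    rw [Algebra.algebraMap_eq_smul_one, Algebra.algebraMap_eq_smul_one, BB_smul, smul_mul_assoc, one_mul]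
    rfl
  | add b c _ _ hb hc =>
    obtain ⟨M, hM, h1⟩ := hb
    obtain ⟨M', hM', h2⟩ := hc
    refine ⟨M + M', Subalgebra.add_mem _ hM hM', fun g => ?_⟩
    rw [BB_add, LinearMap.add_apply, h1, h2, add_mul]
    rfl
  | mul b c _ _ hb hc =>
    obtain ⟨M, hM, h1⟩ := hb
    obtain ⟨M', hM', h2⟩ := hc
    refine ⟨M * M', Subalgebra.mul_mem _ hM hM', fun g => ?_⟩
    rw [BB_mul, Module.End.mul_apply, h2, h1, mul_assoc]

theorem Fn_tr' {m : ℕ} (N : NN) (v : List (Bool × ℕ)) (z : BB m) {M : MM m N.1}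
    (h : ∀ g : MM m N.1, (z N) g = (M * g : MM m N.1)) :
    Fn (braidClosure m) N v z = (M * mw (Ar N.1) m N.1 v).trace := by
  unfold Fn
  rw [delta_eq, rho_mul, mul_one, h]
  unfold Zg
  have h1 : ∀ col : (braidClosure m).P → Fin N.1,
      WW (Ar N.1) (braidClosure m).arcs (braidClosure m).crossings col = 1 := by
    intro col
    simp [WW, braidClosure]
  simp only [h1, one_mul]
  rfl

theorem eq_of_Fn {n : ℕ} {z : BB (n+1)} (hz : z ∈ Sm (n+1))
    (h : ∀ (N : NN), ∀ t ∈ ts n, Fn (braidClosure (n+1)) N t z = 0) : z = 0 := by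
  funext N
  obtain ⟨M, hM, h1⟩ := rep hz N
  have h2 : M = 0 := nondeg' N hM fun t ht => by
    rw [← Fn_tr' N t z h1]
    exact h N t ht
  apply LinearMap.ext
  intro g
  rw [h1 g, h2, zero_mul]
  rfl

theorem uniq {g g' : ℤ[T;T⁻¹]} (h : ∀ N : NN, (N.1 : ℂ) * ev N.1 N.2 g = (N.1 : ℂ) * ev N.1 N.2 g') :
    g = g' := by
  rw [← sub_eq_zero]
  apply eq_zero_of_ev
  intro N hN
  rw [map_sub, mul_left_cancel₀ (N_ne ⟨N, hN⟩) (h ⟨N, hN⟩), sub_self]

theorem ts_lt' (n : ℕ) (i : Fin (ts n).length) : ∀ x ∈ (ts n).get i, x.2 + 1 < n + 1 :=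
  lt' (ts_lt n _ (List.get_mem _ i))

/-- the value -/
noncomputable def vl (n : ℕ) (z : Sm (n+1)) (i : Fin (ts n).length) : ℤ[T;T⁻¹] :=
  (fn_exists (Nat.succ_pos n) (braidClosure (n+1)) ((ts n).get i) (ts_lt' n i) z.1 z.2).choose

theorem vl_spec (n : ℕ) (z : Sm (n+1)) (i : Fin (ts n).length) (N : NN) :
    (N.1 : ℂ) * ev N.1 N.2 (vl n z i) = Fn (braidClosure (n+1)) N ((ts n).get i) z.1 :=
  (fn_exists (Nat.succ_pos n) (braidClosure (n+1)) ((ts n).get i) (ts_lt' n i) z.1 z.2).choose_spec N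

/-- the linear map of the values -/
noncomputable def vlm (n : ℕ) : Sm (n+1) →ₗ[ℤ[T;T⁻¹]] (Fin (ts n).length → ℤ[T;T⁻¹]) where
  toFun z := vl n z
  map_add' z z' := by
    funext i
    apply uniq
    intro N
    rw [vl_spec, Pi.add_apply, map_add, mul_add, vl_spec, vl_spec]
    exact Fn_add _ _ _ _ _
  map_smul' r z := by
    funext i
    apply uniq
    intro N
    rw [vl_spec, Pi.smul_apply, smul_eq_mul, map_mul, mul_left_comm, RingHom.id_apply, vl_spec]
    exact Fn_smul _ _ _ _ _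

theorem vlm_inj (n : ℕ) : Function.Injective (vlm n) := by
  rw [injective_iff_map_eq_zero]
  intro z hz
  apply Subtype.ext
  refine eq_of_Fn z.2 fun N t ht => ?_
  obtain ⟨i, rfl⟩ := List.get_of_mem ht
  rw [← vl_spec]
  have h1 : vl n z i = 0 := congrFun hz i
  rw [h1, map_zero, mul_zero]

theorem bb_mem {m : ℕ} (x : List (Bool × ℕ)) : bb m x ∈ Sm m := by
  unfold bb wd
  refine Subalgebra.list_prod_mem _ fun y hy => ?_
  obtain ⟨x, _, rfl⟩ := List.mem_map.1 hy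
  have h1 : EB m x.2 ∈ Sm m := Algebra.subset_adjoin ⟨x.2, rfl⟩
  unfold ltr
  split_ifs
  · exact Subalgebra.add_mem _ (Subalgebra.smul_mem _ (Subalgebra.one_mem _) _) (Subalgebra.smul_mem _ h1 _)
  · exact Subalgebra.add_mem _ (Subalgebra.smul_mem _ (Subalgebra.one_mem _) _) (Subalgebra.smul_mem _ h1 _)

/-- the factor -/
theorem factor (n : ℕ) : ∃ κ : ℤ[T;T⁻¹], κ ≠ 0 ∧ ∀ (h : ℤ[T;T⁻¹]) (x : List (Bool × ℕ)),
    (∀ y ∈ x, y.2 < n) →
    (∀ t ∈ ts n, h ∣ brk (braidClosure (n+1)) (x ++ t) - brk (braidClosure (n+1)) t) →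
    ∀ (O : Outer (n+1)) (v : List (Bool × ℕ)), (∀ y ∈ v, y.2 < n) →
      h ∣ κ * (brk O (x ++ v) - brk O v) := by
  obtain ⟨κ, hκ, u, hu⟩ := left_inverse (vlm n) (vlm_inj n)
  refine ⟨κ, hκ, fun h x hx ht O v hv => ?_⟩
  set b : Sm (n+1) := ⟨bb (n+1) x, bb_mem x⟩ - 1 with hb
  have h1 : ∀ i, h ∣ vl n b i := by
    intro i
    have h2 : vl n b i = brk (braidClosure (n+1)) (x ++ (ts n).get i) -
        brk (braidClosure (n+1)) ((ts n).get i) := by
      apply uniq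
      intro N
      rw [vl_spec, map_sub, mul_sub]
      have h3 := brk_value (Nat.succ_pos n) (braidClosure (n+1)) ((ts n).get i) x (ts_lt' n i) (lt' hx) N
      have h4 := brk_value (Nat.succ_pos n) (braidClosure (n+1)) ((ts n).get i) [] (ts_lt' n i)
        (by simp) N
      rw [List.nil_append] at h4
      rw [h3, h4]
      exact Fn_sub _ _ _ _ _
    rw [h2]
    exact ht _ (List.get_mem _ i)
  choose c hc using h1
  have h5 : κ • b = h • ∑ i, c i • u i := by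
    rw [hu b, Finset.smul_sum]
    refine Finset.sum_congr rfl fun i _ => ?_
    have : vlm n b i = vl n b i := rfl
    rw [this, hc i, smul_smul]
  refine transferB (Nat.succ_pos n) O x v (lt' hx) (lt' hv) κ h ((∑ i, c i • u i : Sm (n+1)) : BB (n+1))
    (∑ i, c i • u i : Sm (n+1)).2 ?_
  have h6 := congrArg (Subtype.val) h5
  have h7 : ((κ • b : Sm (n+1)) : BB (n+1)) = κ • bb (n+1) x - κ • 1 := by
    rw [hb, smul_sub]
    rfl
  have h8 : ((h • ∑ i, c i • u i : Sm (n+1)) : BB (n+1)) = h • ((∑ i, c i • u i : Sm (n+1)) : BB (n+1)) := rfl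
  rw [h7, h8] at h6
  rw [← h6]
  abel

end Pool.Agent.J5.H37.AM
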